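import Mathlib

/-!
# Counting words with equal products
-/

set_option autoImplicit false

open Finset

namespace Pool.Agent.N181.Gap

variable {ι K : Type*} [Fintype ι] [DecidableEq ι] [CommMonoid K] [DecidableEq K]

/-- The number of values of the products of the words of length `N`. -/
lemma card_values (α : ι → K) (N : ℕ) :
    (univ.image fun i : Fin N → ι => ∏ l, α (i l)).card ≤ (N + 1) ^ Fintype.card ι := by
  have h1 : ∀ i : Fin N → ι, ∏ l, α (i l) = ∏ a, α a ^ (univ.filter fun l => i l = a).card := by
    intro i
    rw [← Finset.prod_fiberwise univ i (fun l => α (i l))]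
    refine Finset.prod_congr rfl fun a _ => ?_
    rw [Finset.prod_congr rfl (g := fun _ => α a) (fun l hl => by
      rw [(Finset.mem_filter.1 hl).2]), Finset.prod_const]
  have h2 : (univ.image fun i : Fin N → ι => ∏ l, α (i l)) ⊆
      univ.image fun k : ι → Fin (N + 1) => ∏ a, α a ^ (k a : ℕ) := by
    intro x hx
    obtain ⟨i, -, rfl⟩ := Finset.mem_image.1 hx
    refine Finset.mem_image.2 ⟨fun a => ⟨(univ.filter fun l => i l = a).card, ?_⟩, mem_univ _, ?_⟩
    · have := Finset.card_le_univ (univ.filter fun l => i l = a)
      rw [Fintype.card_fin] at this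
      omega
    · exact (h1 i).symm
  refine (Finset.card_le_card h2).trans (Finset.card_image_le.trans ?_)
  rw [Finset.card_univ, Fintype.card_fun, Fintype.card_fin]

/-- **The number of pairs of words with the same product.** -/
theorem pow_le_card_pairs (α : ι → K) (N : ℕ) :
    (Fintype.card ι ^ N) ^ 2 ≤ (N + 1) ^ Fintype.card ι *
      (univ.filter fun x : (Fin N → ι) × (Fin N → ι) =>
        ∏ l, α (x.1 l) = ∏ l, α (x.2 l)).card := by
  set f : (Fin N → ι) → K := fun i => ∏ l, α (i l) with hf
  set V := univ.image f with hV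
  have h1 : ∑ v ∈ V, (univ.filter fun i => f i = v).card = Fintype.card ι ^ N := by
    rw [← Finset.card_eq_sum_card_image f univ, Finset.card_univ, Fintype.card_fun,
      Fintype.card_fin]
  have h2 : ∑ v ∈ V, (univ.filter fun i => f i = v).card ^ 2 =
      (univ.filter fun x : (Fin N → ι) × (Fin N → ι) => f x.1 = f x.2).card := by
    rw [Finset.card_eq_sum_card_fiberwise (f := fun x => f x.1) (t := V)
      (fun x _ => Finset.mem_image_of_mem f (mem_univ _))]
    refine Finset.sum_congr rfl fun v _ => ?_
    rw [sq, ← Finset.card_product]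
    congr 1
    ext ⟨x, y⟩
    simp only [Finset.mem_product, Finset.mem_filter, mem_univ, true_and]
    constructor
    · rintro ⟨h1, h2⟩; exact ⟨h1.trans h2.symm, h1⟩
    · rintro ⟨h1, h2⟩; exact ⟨h2, h1 ▸ h2⟩
  have h3 := sq_sum_le_card_mul_sum_sq (s := V) (f := fun v =>
    (univ.filter fun i => f i = v).card)
  rw [h1, h2] at h3
  exact h3.trans (Nat.mul_le_mul_right _ (card_values α N))

end Pool.Agent.N181.Gap
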