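import Pool.Agent.N181.Gap.TateC
import Pool.Agent.N181.Gap.Count
import Pool.Agent.N181.Mod.GeoA

/-!
# Families of generalised eigenvectors of the Frobenius endomorphisms
-/

set_option autoImplicit false

open CategoryTheory AlgebraicGeometry TensorProduct

universe u v

namespace Pool.Agent.N181.Gap

open Pool.Agent.H914 Pool.Agent.H914.VarClass Pool.Agent.H914.VarClass.Obj
  Pool.Agent.H914.WeilCohomology Pool.Agent.W534 Pool.Agent.TH132.P Pool.Agent.N181.Mod
  Pool.Agent.H281R3.HT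

variable {k : Type u} [Field k] {𝒱 : VarClass k} {ops : CycleOps 𝒱}
  {W : WeilCohomology.{u, v} ops} {U X Y Z Z' S : 𝒱.Obj} {p : ℕ} {Φ : FrobSystem W p}
  {ι κ : Type}

/-- A linearly independent family of generalised eigenvectors of the Frobenius endomorphism over
the field with `p ^ R` elements. -/
def Ad (Φ : FrobSystem W p) (R : ℕ) (X : 𝒱.Obj) (b : ι → W.H X) (α : ι → W.K) : Prop :=
  LinearIndependent W.K b ∧ ∃ s, 0 < s ∧ Φ.e X * s = R ∧
    ∀ i, b i ∈ (frob Φ X s).maxGenEigenspace (α i)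

lemma Ad.raise {R : ℕ} {b : ι → W.H X} {α : ι → W.K} (h : Ad Φ R X b α) {r : ℕ} (hr : 0 < r) :
    Ad Φ (R * r) X b (fun i => α i ^ r) := by
  obtain ⟨h1, s, hs, he, h2⟩ := h
  refine ⟨h1, s * r, Nat.mul_pos hs hr, by rw [← mul_assoc, he], fun i => ?_⟩
  rw [frob_mul_eq]
  exact gen_mono _ _ r (h2 i)

lemma Ad.reindex {R : ℕ} {b : ι → W.H X} {α : ι → W.K} (h : Ad Φ R X b α) (e : κ → ι)
    (he : Function.Injective e) : Ad Φ R X (fun i => b (e i)) (fun i => α (e i)) := by
  obtain ⟨h1, s, hs, he', h2⟩ := h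
  exact ⟨h1.comp e he, s, hs, he', fun i => h2 (e i)⟩

lemma Ad.prod {R : ℕ} {b : ι → W.H X} {α : ι → W.K} {c : κ → W.H U} {β : κ → W.K}
    (h : Ad Φ R X b α) (h' : Ad Φ R U c β) : ∃ r, 0 < r ∧ Ad Φ (R * r) (X.prod U)
      (fun x : ι × κ => ext W (b x.1) (c x.2)) (fun x => (α x.1 * β x.2) ^ r) := by
  obtain ⟨h1, s, hs, he, h2⟩ := h
  obtain ⟨h1', s', hs', he', h2'⟩ := h'
  obtain ⟨A, B, B', hA, hB, hB', e1, e2, hl⟩ := exists_levels Φ X U
  refine ⟨B, hB, ?_, A * s, Nat.mul_pos hA hs, ?_, ?_⟩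
  · have h3 := h1.tmul_of_isDomain h1'
    have h4 := h3.map' (kappa W X U).toLinearMap (LinearEquiv.ker _)
    have e3 : ((kappa W X U).toLinearMap ∘ fun x : ι × κ => b x.1 ⊗ₜ[W.K] c x.2) =
        fun x : ι × κ => ext W (b x.1) (c x.2) := by
      funext x
      exact kappa_tmul _ _
    rw [← e3]
    exact h4
  · rw [← mul_assoc, e1, mul_assoc, mul_comm B s, ← mul_assoc, he]
  · rintro ⟨i, j⟩
    have hBs : B' * s = s' * B := by
      have h3 : Φ.e U * (B' * s) = Φ.e U * (s' * B) := by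
        rw [← mul_assoc, ← e2, e1, ← mul_assoc, he', mul_assoc, mul_comm B s, ← mul_assoc, he]
      exact Nat.eq_of_mul_eq_mul_left (Φ.e_pos U) h3
    -- the pull-backs
    have hfst : ∀ x : W.H X, frob Φ (X.prod U) (A * s) ((W.map (fst X U)).toLinearMap x) =
        (1 : W.K) • (W.map (fst X U)).toLinearMap (frob Φ X (B * s) x) := by
      intro x
      have h3 := hl s (x ⊗ₜ[W.K] (1 : W.H U))
      have e3 : kunnethMap (W.map (fst X U)) (W.map (snd X U)) (x ⊗ₜ[W.K] (1 : W.H U)) =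
          W.map (fst X U) x := by
        change W.map (fst X U) x * W.map (snd X U) 1 = _
        rw [map_one, mul_one]
      have e4 : kunnethMap (W.map (fst X U)) (W.map (snd X U))
          (TensorProduct.map (frob Φ X (B * s)) (frob Φ U (B' * s)) (x ⊗ₜ[W.K] (1 : W.H U))) =
          W.map (fst X U) (frob Φ X (B * s) x) := by
        change W.map (fst X U) (frob Φ X (B * s) x) * W.map (snd X U) (frob Φ U (B' * s) 1) = _
        rw [frob_apply, frob_apply, map_one, map_one, mul_one]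
      rw [e3, e4] at h3
      rw [one_smul]
      exact h3
    have hsnd : ∀ x : W.H U, frob Φ (X.prod U) (A * s) ((W.map (snd X U)).toLinearMap x) =
        (1 : W.K) • (W.map (snd X U)).toLinearMap (frob Φ U (B' * s) x) := by
      intro x
      have h3 := hl s ((1 : W.H X) ⊗ₜ[W.K] x)
      have e3 : kunnethMap (W.map (fst X U)) (W.map (snd X U)) ((1 : W.H X) ⊗ₜ[W.K] x) =
          W.map (snd X U) x := by
        change W.map (fst X U) 1 * W.map (snd X U) x = _
        rw [map_one, one_mul]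
      have e4 : kunnethMap (W.map (fst X U)) (W.map (snd X U))
          (TensorProduct.map (frob Φ X (B * s)) (frob Φ U (B' * s)) ((1 : W.H X) ⊗ₜ[W.K] x)) =
          W.map (snd X U) (frob Φ U (B' * s) x) := by
        change W.map (fst X U) (frob Φ X (B * s) 1) * W.map (snd X U) (frob Φ U (B' * s) x) = _
        rw [frob_apply, frob_apply, map_one, map_one, one_mul]
      rw [e3, e4] at h3
      rw [one_smul]
      exact h3
    have hb : b i ∈ (frob Φ X (B * s)).maxGenEigenspace (α i ^ B) := by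
      rw [mul_comm, frob_mul_eq]
      exact gen_mono _ _ B (h2 i)
    have hc : c j ∈ (frob Φ U (B' * s)).maxGenEigenspace (β j ^ B) := by
      rw [hBs, frob_mul_eq]
      exact gen_mono _ _ B (h2' j)
    rw [Module.End.mem_maxGenEigenspace] at hb hc ⊢
    obtain ⟨n, hn⟩ := hb
    obtain ⟨m, hm⟩ := hc
    have g1 := gen_of_semi hfst hn
    have g2 := gen_of_semi hsnd hm
    rw [one_mul] at g1 g2
    refine ⟨n + m, ?_⟩
    dsimp only
    rw [mul_pow]
    exact gen_mul (W.map (W534.iter (Φ.Fr (X.prod U)) (A * s))) _ _ (n + m) n m _ _ le_rfl g1 g2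

/-- The number of the Tate classes. -/
lemma Ad.count [Fintype ι] {σ : W.K →+* ℂ} (hp : 1 < p) (hRH : RiemannHyp Φ σ X) {R : ℕ}
    {b : ι → W.H X} {α : ι → W.K} (h : Ad Φ R X b α) (c : ℕ) {A : Finset ι}
    (hA : ∀ i ∈ A, α i = ((p : W.K) ^ R) ^ c) :
    A.card ≤ Module.finrank W.K (tot (sysT Φ) X) := by
  obtain ⟨h1, s, hs, he, h2⟩ := h
  have h3 : LinearIndependent W.K (fun i : A => b i) := h1.comp _ Subtype.val_injective
  have h4 := finrank_span_eq_card h3
  rw [Fintype.card_coe] at h4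
  rw [← h4]
  apply Submodule.finrank_mono
  rw [Submodule.span_le]
  rintro _ ⟨⟨i, hi⟩, rfl⟩
  refine le_tot (sysT Φ) X c ?_
  refine (mem_genT Φ).2 ⟨s, hs, ?_⟩
  rw [genTate_eq Φ hp hRH hs]
  have h5 := h2 i
  rw [hA i hi, ← he] at h5
  rw [card_cast]
  exact h5

/-- The families on the powers. -/
theorem Ad.pow {R : ℕ} {b : ι → W.H Y} {α : ι → W.K} {c : κ → W.H S} {β : κ → W.K}
    (h : Ad Φ R Y b α) (h' : Ad Φ R S c β) (N : ℕ) :
    ∃ r, 0 < r ∧ ∃ d : (Fin N → ι) × κ → W.H (powProd Y S N), Ad Φ (R * r) (powProd Y S N) d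
      (fun x => ((∏ l, α (x.1 l)) * β x.2) ^ r) := by
  induction N with
  | zero =>
    refine ⟨1, one_pos, fun x => c x.2, ?_⟩
    have h1 := h'.reindex (κ := (Fin 0 → ι) × κ) (fun x => x.2) (by
      rintro ⟨x, y⟩ ⟨x', y'⟩ hxy
      exact Prod.ext (Subsingleton.elim _ _) hxy)
    rw [mul_one]
    refine ⟨h1.1, ?_⟩
    obtain ⟨s, hs, he, h2⟩ := h1.2
    refine ⟨s, hs, he, fun i => ?_⟩
    dsimp only
    rw [Fin.prod_univ_zero, one_mul, pow_one]
    exact h2 i
  | succ N ih =>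
    obtain ⟨r, hr, d, hd⟩ := ih
    obtain ⟨r', hr', h1⟩ := (h.raise hr).prod hd
    refine ⟨r * r', Nat.mul_pos hr hr', fun x => ext W (b (x.1 0)) (d (fun l => x.1 l.succ, x.2)),
      ?_⟩
    have h2 := h1.reindex (κ := (Fin (N + 1) → ι) × κ)
      (fun x => (x.1 0, (fun l => x.1 l.succ, x.2))) (by
        rintro ⟨x, y⟩ ⟨x', y'⟩ hxy
        have e1 := congrArg Prod.fst hxy
        have e2 := congrArg (fun z => z.2.1) hxy
        have e3 := congrArg (fun z => z.2.2) hxy
        dsimp only at e1 e2 e3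
        refine Prod.ext ?_ e3
        funext l
        refine Fin.cases e1 (fun l => ?_) l
        exact congrFun e2 l)
    rw [mul_assoc] at h2
    have e4 : (fun x : (Fin (N + 1) → ι) × κ => ((∏ l, α (x.1 l)) * β x.2) ^ (r * r')) =
        fun x => (α (x.1 0) ^ r * ((∏ l : Fin N, α (x.1 l.succ)) * β x.2) ^ r) ^ r' := by
      funext x
      rw [Fin.prod_univ_succ, pow_mul, ← mul_pow, mul_assoc]
    rw [e4]
    exact h2

end Pool.Agent.N181.Gap
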