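import Pool.Agent.N181.Gap.FamG
import Pool.Agent.N181.Mod.Fams

/-!
# The inequality for the powers
-/

set_option autoImplicit false

open CategoryTheory AlgebraicGeometry

universe u v

namespace Pool.Agent.N181.Gap

open Pool.Agent.H914 Pool.Agent.H914.VarClass Pool.Agent.H914.VarClass.Obj
  Pool.Agent.H914.WeilCohomology Pool.Agent.W534 Pool.Agent.TH132.P Pool.Agent.N181.Mod

variable {k : Type u} [Field k] {𝒱 : VarClass k} {ops : CycleOps 𝒱}
  {W : WeilCohomology.{u, v} ops} {U X Y Z Z' S : 𝒱.Obj} {p : ℕ}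

section Num

lemma rkSum_add (Z : 𝒱.Obj) : rkSum ops Z + Module.finrank W.K (tot (sysN W) Z) =
    Module.finrank W.K (tot (sysA W) Z) := by
  rw [finrank_tot, finrank_tot, rkSum, ← Finset.sum_add_distrib]
  refine Finset.sum_congr rfl fun c hc => ?_
  rw [numRank_eq (W := W) (by have := Finset.mem_range.1 hc; omega)]
  exact finrank_nul c

lemma totN_le : tot (sysN W) Z ≤ tot (sysA W) Z ⊓ perp (tot (sysA W) Z) := by
  intro x hx
  refine tot_ind (p := fun x => x ∈ tot (sysA W) Z ⊓ perp (tot (sysA W) Z))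
    (Submodule.zero_mem _) (fun a b ha hb => Submodule.add_mem _ ha hb) ?_ hx
  intro c x hx
  obtain ⟨h1, h2⟩ := mem_nul.1 hx
  refine ⟨le_tot (sysA W) Z c h1, fun y hy => ?_⟩
  refine tot_ind (p := fun y => W.tr Z (x * y) = 0) (by rw [mul_zero, map_zero])
    (fun a b ha hb => by rw [mul_add, map_add, ha, hb, add_zero]) ?_ hy
  intro l y hy
  by_cases hl : l = Z.dim - c
  · subst hl
    exact h2 y hy
  · by_cases hcl : c + l = Z.dim
    · exact absurd (by omega) hl
    · exact W.tr_eq_zero (W.mul_mem (H914.span_gr h1) (H914.span_gr hy)) (by omega)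

lemma le_totN : tot (sysA W) Z ⊓ perp (tot (sysA W) Z) ≤ tot (sysN W) Z := by
  rintro x ⟨hx, hx'⟩
  have hpr : ∀ c, proj (W.isInternal Z) (2 * c) x ∈ spanCycles W Z (c : ℕ) := proj_algSp hx
  have htr : ∀ c, ∀ y ∈ spanCycles W Z (Z.dim - c : ℕ), c ≤ Z.dim →
      W.tr Z (proj (W.isInternal Z) (2 * c) x * y) = W.tr Z (x * y) := by
    intro c y hy hc
    refine tot_ind (𝒮 := sysA W) (p := fun x => W.tr Z (proj (W.isInternal Z) (2 * c) x * y) =
      W.tr Z (x * y)) (by rw [map_zero]) (fun a b ha hb => by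
        rw [map_add, add_mul, add_mul, map_add, map_add, ha, hb]) ?_ hx
    intro l x hx
    by_cases hl : l = c
    · subst hl
      rw [proj_same _ (H914.span_gr hx)]
    · rw [proj_ne _ (H914.span_gr hx) (by omega), zero_mul, map_zero,
        W.tr_eq_zero (W.mul_mem (H914.span_gr hx) (H914.span_gr hy)) (by omega)]
  have h1 := sum_proj (W.isInternal Z) (N := 2 * Z.dim + 1)
    (fun i hi => W.gr_eq_bot Z i (by omega))
  have h2 := congrArg (fun F => F x) h1
  simp only [LinearMap.sum_apply, Module.End.one_apply] at h2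
  rw [← h2]
  refine Submodule.sum_mem _ fun i _ => ?_
  rcases Nat.even_or_odd' i with ⟨c, rfl | rfl⟩
  · by_cases hc : c ≤ Z.dim
    · refine le_tot (sysN W) Z c (mem_nul.2 ⟨hpr c, fun y hy => ?_⟩)
      rw [htr c y hy hc]
      exact hx' y (le_tot (sysA W) Z _ hy)
    · have h3 := hpr c
      rw [spanCycles_bot (by omega)] at h3
      rw [(Submodule.mem_bot _).1 h3]
      exact Submodule.zero_mem _
  · rw [proj_algSp_odd hx]
    exact Submodule.zero_mem _

end Num

section Orth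

/-- Orthogonality, the first kind of operators. -/
lemma orth_one {t : W.H Y} (hc : Cen W t) (ht : t ∈ perp (tot (sysA W) Y)) (g : X ⟶ Y)
    (h : X ⟶ S) {x : W.H X} (hx : x ∈ tot (sysA W) X) :
    top W g h 1 t x ∈ perp (tot (sysA W) X) := by
  intro y hy
  rw [top_apply, map_one, one_mul, ← tot_comm hy, ← W.tr_push,
    tot_comm (tot_push h hy), W.tr_push, hc, mul_assoc, hc, ← mul_assoc, ← W.tr_push]
  have h1 := tot_push g (tot_mul hx (tot_map (𝒮 := sysA W) h (tot_push h hy)))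
  rw [tot_comm h1]
  exact ht _ h1

/-- Orthogonality, the second kind of operators. -/
lemma orth_two {s u' : W.H Y} (hc : Cen W s) (hs : s ∈ perp (tot (sysA W) Y))
    (hu : u' ∈ tot (sysA W) Y) (g : X ⟶ Y) (h : X ⟶ S) {x : W.H X} (hx : x ∈ tot (sysA W) X) :
    top W g h s u' x ∈ perp (tot (sysA W) X) := by
  intro y hy
  have h0 : W.map h (W.push h (W.map g u' * x)) ∈ tot (sysA W) X :=
    tot_map h (tot_push h (tot_mul (tot_map g hu) hx))
  have h1 := tot_push g (tot_mul h0 hy)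
  rw [top_apply, mul_assoc, hc, ← W.tr_push, tot_comm h1]
  exact hs _ h1

lemma ClSys.top_mem (𝒮 : ClSys W) {a b : W.H Y} (ha : a ∈ tot 𝒮.toSys Y)
    (hb : b ∈ tot 𝒮.toSys Y) (g : X ⟶ Y) (h : X ⟶ S) {x : W.H X} (hx : x ∈ tot 𝒮.toSys X) :
    top W g h a b x ∈ tot 𝒮.toSys X :=
  𝒮.mul_tot (tot_map g ha) (tot_map h (tot_push h (𝒮.mul_tot (tot_map g hb) hx)))

lemma top_mem_alg {b : W.H Y} (hb : b ∈ tot (sysA W) Y) (g : X ⟶ Y) (h : X ⟶ S) {x : W.H X}
    (hx : x ∈ tot (sysA W) X) : top W g h 1 b x ∈ tot (sysA W) X := by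
  rw [top_apply, map_one, one_mul]
  exact tot_map h (tot_push h (tot_mul (tot_map g hb) hx))

end Orth

section Final

variable {𝒮 : ClSys W} {s t u' : W.H Y} {j n : ℕ} {E F : Fin j → Module.End W.K (W.H X)}

lemma GFam.inf_le (hG : GFam W s t u' X j n E F) :
    Module.finrank W.K (⨅ i ∈ (Finset.univ : Finset (Fin j)), LinearMap.ker (pr E F i) :
      Submodule W.K (W.H X)) ≤ n := by
  obtain ⟨Q, a, hQ, hn⟩ := hG.rank
  refine (Submodule.finrank_mono ?_).trans hn
  intro x hx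
  rw [Submodule.mem_iInf] at hx
  have h1 : (1 - Q) x = 0 := by
    rw [hQ, LinearMap.sum_apply]
    refine Finset.sum_eq_zero fun i _ => ?_
    have h2 := (Submodule.mem_iInf _).1 (hx i) (Finset.mem_univ i)
    rw [Module.End.mul_apply, LinearMap.mem_ker.1 h2, map_zero]
  rw [LinearMap.sub_apply, sub_eq_zero] at h1
  exact ⟨x, h1.symm⟩

/-- The first case. -/
theorem case_one (hG : GFam W s t u' X j n E F) (h : IsPair W s t u')
    (hs : s ∈ tot 𝒮.toSys Y) (hs' : s ∈ perp (tot (sysA W) Y)) (ht : t ∈ tot 𝒮.toSys Y)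
    (ht' : t ∈ perp (tot (sysA W) Y)) (hu : u' ∈ tot (sysA W) Y) :
    2 * rkSum ops X ≤ Module.finrank W.K (tot 𝒮.toSys X) + n := by
  obtain ⟨c, hc⟩ := hG.rel.exists_generic Finset.univ
  set T := ∑ i ∈ (Finset.univ : Finset (Fin j)), c i • (E i + F i) with hT
  have hmem : ∀ x ∈ tot (sysA W) X, T x ∈ tot 𝒮.toSys X ⊓ perp (tot (sysA W) X) := by
    intro x hx
    rw [hT, LinearMap.sum_apply]
    refine Submodule.sum_mem _ fun i _ => ?_
    rw [LinearMap.smul_apply, LinearMap.add_apply]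
    refine Submodule.smul_mem _ _ (Submodule.add_mem _ ?_ ?_)
    · obtain ⟨S, g, h', hi⟩ := hG.e_form i
      rw [hi]
      exact ⟨𝒮.top_mem (𝒮.alg_tot Y (one_mem_tot Y)) ht g h' (𝒮.alg_tot X hx),
        orth_one h.ct ht' g h' hx⟩
    · obtain ⟨S, g, h', hi⟩ := hG.f_form i
      rw [hi]
      exact ⟨𝒮.top_mem hs (𝒮.alg_tot Y hu) g h' (𝒮.alg_tot X hx),
        orth_two h.cs hs' hu g h' hx⟩
  set A := tot (sysA W) X with hA
  set V := tot 𝒮.toSys X with hV
  have k1 := LinearMap.finrank_range_add_finrank_ker (T ∘ₗ A.subtype)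
  have k2 : Module.finrank W.K (LinearMap.range (T ∘ₗ A.subtype)) ≤
      Module.finrank W.K (V ⊓ perp A : Submodule W.K (W.H X)) := by
    apply Submodule.finrank_mono
    rintro _ ⟨x, rfl⟩
    exact hmem x x.2
  have k3 : Module.finrank W.K (LinearMap.ker (T ∘ₗ A.subtype)) ≤ n := by
    refine le_trans ?_ hG.inf_le
    rw [← Submodule.finrank_map_subtype_eq A]
    apply Submodule.finrank_mono
    rintro _ ⟨x, hx, rfl⟩
    exact hc hx
  have k4 := 𝒮.finrank_perp (𝒮.alg_tot X)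
  have k5 := rkSum_add (W := W) X
  rw [← hA, ← hV] at k4
  rw [← hA] at k5
  omega

/-- The second case. -/
theorem case_two (hG : GFam W s t u' X j n E F) (h : IsPair W s t u')
    (hs : s ∈ tot 𝒮.toSys Y) (ht : t ∈ tot (sysA W) Y)
    (ht' : t ∈ perp (tot (sysA W) Y)) (hu : u' ∈ tot 𝒮.toSys Y) :
    2 * rkSum ops X ≤ Module.finrank W.K (tot 𝒮.toSys X) + n := by
  set T := ∑ i ∈ (Finset.univ : Finset (Fin j)), E i with hT
  have hE : ∀ i, ∀ x ∈ tot 𝒮.toSys X, E i x ∈ tot 𝒮.toSys X := by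
    intro i x hx
    obtain ⟨S, g, h', hi⟩ := hG.e_form i
    rw [hi]
    exact 𝒮.top_mem (𝒮.alg_tot Y (one_mem_tot Y)) (𝒮.alg_tot Y ht) g h' hx
  have hF : ∀ i, ∀ x ∈ tot 𝒮.toSys X, F i x ∈ tot 𝒮.toSys X := by
    intro i x hx
    obtain ⟨S, g, h', hi⟩ := hG.f_form i
    rw [hi]
    exact 𝒮.top_mem hs hu g h' hx
  have hmem : ∀ x ∈ tot (sysA W) X, T x ∈ tot (sysN W) X := by
    intro x hx
    refine le_totN ?_
    rw [hT, LinearMap.sum_apply]
    refine Submodule.sum_mem _ fun i _ => ?_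
    obtain ⟨S, g, h', hi⟩ := hG.e_form i
    rw [hi]
    exact ⟨top_mem_alg ht g h' hx, orth_one h.ct ht' g h' hx⟩
  have k0 := hG.rel.half_kernel Finset.univ (tot 𝒮.toSys X) (fun i _ => hE i) (fun i _ => hF i)
  have k1 := LinearMap.finrank_range_add_finrank_ker (T ∘ₗ (tot (sysA W) X).subtype)
  have k2 : Module.finrank W.K (LinearMap.range (T ∘ₗ (tot (sysA W) X).subtype)) ≤
      Module.finrank W.K (tot (sysN W) X) := by
    apply Submodule.finrank_mono
    rintro _ ⟨x, rfl⟩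
    exact hmem x x.2
  have k3 : Module.finrank W.K (LinearMap.ker (T ∘ₗ (tot (sysA W) X).subtype)) ≤
      Module.finrank W.K (tot 𝒮.toSys X ⊓ LinearMap.ker T : Submodule W.K (W.H X)) := by
    rw [← Submodule.finrank_map_subtype_eq (tot (sysA W) X)]
    apply Submodule.finrank_mono
    rintro _ ⟨x, hx, rfl⟩
    exact ⟨𝒮.alg_tot X x.2, hx⟩
  have k4 : Module.finrank W.K (tot 𝒮.toSys X ⊓ ⨅ i ∈ (Finset.univ : Finset (Fin j)),
      LinearMap.ker (pr E F i) : Submodule W.K (W.H X)) ≤ n :=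
    (Submodule.finrank_mono inf_le_right).trans hG.inf_le
  have k5 := rkSum_add (W := W) X
  rw [← hT] at k0
  omega

end Final

/-- The numerical and the cohomological ranks of `Y` differ in some codimension. -/
def Fails (𝒮 : ClSys W) (Y : 𝒱.Obj) : Prop :=
  rkSum ops Y ≠ Module.finrank W.K (tot 𝒮.toSys Y)

lemma rkSum_le (𝒮 : ClSys W) (Y : 𝒱.Obj) :
    rkSum ops Y ≤ Module.finrank W.K (tot 𝒮.toSys Y) := by
  have h1 := rkSum_add (W := W) Y
  have h2 := Submodule.finrank_mono (𝒮.alg_tot Y)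
  omega

/-- **The inequality for the powers.** -/
theorem gap (𝒮 : ClSys W) {Y : 𝒱.Obj} (hY : Fails 𝒮 Y) (Z : 𝒱.Obj) (j : ℕ) :
    2 * rkSum ops (powProd Y Z j) ≤ Module.finrank W.K (tot 𝒮.toSys (powProd Y Z j)) +
      (Module.finrank W.K (W.H Y) - 2) ^ j * Module.finrank W.K (W.H Z) := by
  set A := tot (sysA W) Y with hA
  set V := tot 𝒮.toSys Y with hV
  have hAV : A ≤ V := 𝒮.alg_tot Y
  have h1A : (1 : W.H Y) ∈ A := one_mem_tot Y
  by_cases hpt : ∃ u' ∈ A, W.tr Y u' = 1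
  swap
  · -- no zero-cycles of non-zero degree
    have hpt0 : ∀ x ∈ A, W.tr Y x = 0 := by
      intro x hx
      by_contra hne
      exact hpt ⟨(W.tr Y x)⁻¹ • x, Submodule.smul_mem _ _ hx, by
        rw [map_smul, smul_eq_mul, inv_mul_cancel₀ hne]⟩
    rcases j with _ | j
    · have h1 := rkSum_le 𝒮 (powProd Y Z 0)
      have h2 : Module.finrank W.K (tot 𝒮.toSys (powProd Y Z 0)) ≤
        Module.finrank W.K (W.H Z) := Submodule.finrank_le _
      rw [pow_zero, one_mul]
      omega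
    · have h1 : rkSum ops (powProd Y Z (j + 1)) = 0 := by
        have h2 := rkSum_add (W := W) (powProd Y Z (j + 1))
        have h3 : tot (sysA W) (powProd Y Z (j + 1)) ≤ tot (sysN W) (powProd Y Z (j + 1)) := by
          refine le_trans ?_ le_totN
          refine le_inf le_rfl ?_
          intro x hx y hy
          have h4 := tot_push (fst Y (powProd Y Z j)) (tot_mul hx hy)
          have h5 := hpt0 _ h4
          rw [← mul_one (W.push _ _), W.tr_push, map_one, mul_one] at h5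
          exact h5
        have h4 := Submodule.finrank_mono h3
        omega
      rw [h1]
      omega
  obtain ⟨u', hu, hu1⟩ := hpt
  have hperp : V ⊓ perp A ≠ ⊥ := by
    intro hbot
    apply hY
    have h1 := 𝒮.finrank_perp (𝒮.alg_tot Y)
    rw [← hA, ← hV, hbot, finrank_bot, zero_add] at h1
    have h2 : tot (sysN W) Y ≤ ⊥ := by
      rw [← hbot]
      exact totN_le.trans (inf_le_inf_right _ hAV)
    have h3 := rkSum_add (W := W) Y
    rw [le_bot_iff.1 h2, finrank_bot, add_zero] at h3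
    rw [h3, ← hA, ← hV, h1]
  by_cases hiso : ∀ s ∈ V ⊓ perp A, ∀ t ∈ V ⊓ perp A, W.tr Y (t * s) = 0
  · -- the second case
    obtain ⟨t, ht, ht0⟩ := (Submodule.ne_bot_iff _).1 hperp
    have htA : t ∈ A := by
      have h1 := 𝒮.finrank_perp (𝒮.alg_tot Y)
      have h2 := 𝒮.finrank_perp (A := V ⊓ perp A) inf_le_left
      have h3 : A ≤ V ⊓ perp (V ⊓ perp A) := by
        refine le_inf hAV ?_
        intro a ha x hx
        rw [tot_comm ha]
        exact hx.2 a ha
      have h4 : A = V ⊓ perp (V ⊓ perp A) := by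
        apply Submodule.eq_of_le_of_finrank_le h3
        rw [← hA, ← hV] at h1
        rw [← hV] at h2
        omega
      rw [h4]
      exact ⟨ht.1, fun s hs => hiso s hs t ht⟩
    obtain ⟨s, hs, hs0⟩ : ∃ s ∈ V, W.tr Y (t * s) ≠ 0 := by
      by_contra hcon
      push Not at hcon
      exact ht0 (𝒮.nondeg_tot ht.1 hcon)
    have ht1 : W.tr Y t = 0 := by
      have := ht.2 1 h1A
      rwa [mul_one] at this
    obtain ⟨s₁, hs₁V, hts₁⟩ : ∃ s₁ ∈ V, W.tr Y (t * s₁) = 1 :=
      ⟨(W.tr Y (t * s))⁻¹ • s, Submodule.smul_mem _ _ hs, by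
        rw [mul_smul_comm, map_smul, smul_eq_mul, inv_mul_cancel₀ hs0]⟩
    set s₂ := s₁ - W.tr Y (u' * s₁) • (1 : W.H Y) with hs₂
    have hs₂V : s₂ ∈ V := Submodule.sub_mem _ hs₁V (Submodule.smul_mem _ _ (hAV h1A))
    have hpair : IsPair W s₂ t u' := by
      refine ⟨cen_of_tot hs₂V, cen_of_tot htA, cen_of_tot hu, ?_, ?_, ?_, ?_⟩
      · rw [hs₂, mul_sub, mul_smul_comm, map_sub, map_smul, mul_one, ht1, smul_zero, sub_zero,
          hts₁]
      · rw [mul_one, hu1]
      · rw [mul_one, ht1]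
      · rw [hs₂, mul_sub, mul_smul_comm, map_sub, map_smul, mul_one, hu1, smul_eq_mul, mul_one,
          sub_self]
    obtain ⟨E, F, hG⟩ := exists_gfam hpair Z j
    exact case_two hG hpair hs₂V htA ht.2 (hAV hu)
  · -- the first case
    push Not at hiso
    obtain ⟨s, hs, t, ht, hst⟩ := hiso
    have ht1 : W.tr Y t = 0 := by
      have := ht.2 1 h1A
      rwa [mul_one] at this
    set s₁ := (W.tr Y (t * s))⁻¹ • s with hs₁
    have hs₁V : s₁ ∈ V ⊓ perp A := Submodule.smul_mem _ _ hs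
    have hts₁ : W.tr Y (t * s₁) = 1 := by
      rw [hs₁, mul_smul_comm, map_smul, smul_eq_mul, inv_mul_cancel₀ hst]
    have hpair : IsPair W s₁ t u' := by
      refine ⟨cen_of_tot hs₁V.1, cen_of_tot ht.1, cen_of_tot hu, hts₁, ?_, ?_, ?_⟩
      · rw [mul_one, hu1]
      · rw [mul_one, ht1]
      · rw [tot_comm hu]
        exact hs₁V.2 u' hu
    obtain ⟨E, F, hG⟩ := exists_gfam hpair Z j
    exact case_one hG hpair hs₁V.1 hs₁V.2 ht.1 ht.2 hu

end Pool.Agent.N181.Gap
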