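import Pool.Agent.W534.PoleDefs

/-!
# The share of the algebraic cycles in the poles of the zeta functions of powers: definitions
-/

set_option autoImplicit false

open CategoryTheory AlgebraicGeometry

universe u v

namespace Pool.Agent.N181.Gap

open Pool.Agent.H914 Pool.Agent.H914.VarClass Pool.Agent.H914.VarClass.Obj
  Pool.Agent.H914.WeilCohomology Pool.Agent.W534

variable {k : Type u} [Field k] {𝒱 : VarClass k} {ops : CycleOps 𝒱}
  {W : WeilCohomology.{u, v} ops} {p : ℕ}

/-- The product `Y ^ j × Z` of `j` copies of `Y` and of `Z`. -/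
noncomputable def powProd (Y Z : 𝒱.Obj) : ℕ → 𝒱.Obj
  | 0 => Z
  | j + 1 => Y.prod (powProd Y Z j)

/-- The sum over all codimensions `c ≤ dim Z` of the ranks of the groups of cycles of codimension `c`
modulo numerical equivalence. -/
noncomputable def rkSum (ops : CycleOps 𝒱) (Z : 𝒱.Obj) : ℕ :=
  ∑ c ∈ Finset.range (Z.dim + 1), numRank ops Z c

/-- Over all sufficiently large finite fields, the sum of the orders of the poles of the zeta
function of `Z` at the points `s = 0, 1, …, dim Z` is `P`. -/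
def PoleSum (Φ : FrobSystem W p) (σ : W.K →+* ℂ) (Z : 𝒱.Obj) (P : ℕ) : Prop :=
  ∃ t, 0 < t ∧ ∀ s, 0 < s → t ∣ s → ∑ c ∈ Finset.range (Z.dim + 1),
    meromorphicOrderAt (zetaFn Φ σ Z s) (c : ℂ) = ((-(P : ℤ) : ℤ) : WithTop ℤ)

/-- The formula of Tate holds for `Z` in all codimensions. -/
def TateFormula (Φ : FrobSystem W p) (σ : W.K →+* ℂ) (Z : 𝒱.Obj) : Prop :=
  ∀ c ≤ Z.dim, PoleFormula Φ σ Z c

end Pool.Agent.N181.Gap
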