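import Mathlib

/-!
# Linear algebra of commuting pairs of nilpotent operators
-/

set_option autoImplicit false

open Polynomial

namespace Pool.Agent.N181.Gap

variable {K H ι : Type*} [Field K] [AddCommGroup H] [Module K H] [FiniteDimensional K H]

/-- Pairs of operators `e i`, `f i` such that each pair satisfies the relations of the matrix units
`e`, `f`, and the operators with different indices commute. -/
structure Rel (e f : ι → Module.End K H) : Prop where
  ee : ∀ i, e i * e i = 0
  ff : ∀ i, f i * f i = 0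
  efe : ∀ i, e i * f i * e i = e i
  fef : ∀ i, f i * e i * f i = f i
  cee : ∀ i k, i ≠ k → e i * e k = e k * e i
  cef : ∀ i k, i ≠ k → e i * f k = f k * e i
  cff : ∀ i k, i ≠ k → f i * f k = f k * f i

/-- The idempotent of a pair. -/
def pr (e f : ι → Module.End K H) (i : ι) : Module.End K H := e i * f i + f i * e i

omit [FiniteDimensional K H] in
lemma finrank_split2 [FiniteDimensional K H] {P : Module.End K H} (hP : P * P = P)
    {Q : Submodule K H} (hQ : ∀ x ∈ Q, P x ∈ Q) :
    Module.finrank K (Q ⊓ LinearMap.range P : Submodule K H) +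
      Module.finrank K (Q ⊓ LinearMap.ker P : Submodule K H) = Module.finrank K Q := by
  have h1 := Submodule.finrank_sup_add_finrank_inf_eq (Q ⊓ LinearMap.range P)
    (Q ⊓ LinearMap.ker P)
  have h2 : (Q ⊓ LinearMap.range P) ⊓ (Q ⊓ LinearMap.ker P) = ⊥ := by
    rw [eq_bot_iff]
    rintro x ⟨⟨_, y, rfl⟩, -, hx⟩
    have h3 : P (P y) = 0 := hx
    rw [← Module.End.mul_apply, hP] at h3
    rw [h3]
    exact Submodule.zero_mem _
  have h3 : (Q ⊓ LinearMap.range P) ⊔ (Q ⊓ LinearMap.ker P) = Q := by
    apply le_antisymm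
    · exact sup_le inf_le_left inf_le_left
    · intro x hx
      have e1 : x = P x + (x - P x) := by abel
      rw [e1]
      refine Submodule.add_mem_sup ⟨hQ x hx, x, rfl⟩ ⟨Submodule.sub_mem _ hx (hQ x hx), ?_⟩
      change P (x - P x) = 0
      rw [map_sub, ← Module.End.mul_apply P P, hP, sub_self]
  rw [h2, h3, finrank_bot, add_zero] at h1
  exact h1.symm

namespace Rel

variable {e f : ι → Module.End K H} (h : Rel e f)

include h

omit [FiniteDimensional K H] in
lemma e_pr (i : ι) : e i * pr e f i = e i := by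
  rw [pr, mul_add, ← mul_assoc, h.ee, zero_mul, zero_add, ← mul_assoc, h.efe]

omit [FiniteDimensional K H] in
lemma pr_e (i : ι) : pr e f i * e i = e i := by
  rw [pr, add_mul, h.efe, mul_assoc, h.ee, mul_zero, add_zero]

omit [FiniteDimensional K H] in
lemma f_pr (i : ι) : f i * pr e f i = f i := by
  rw [pr, mul_add, ← mul_assoc, h.fef, ← mul_assoc, h.ff, zero_mul, add_zero]

omit [FiniteDimensional K H] in
lemma pr_f (i : ι) : pr e f i * f i = f i := by
  rw [pr, add_mul, mul_assoc, h.ff, mul_zero, zero_add, h.fef]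

omit [FiniteDimensional K H] in
lemma pr_idem (i : ι) : pr e f i * pr e f i = pr e f i := by
  conv_lhs => rw [show pr e f i * pr e f i = (e i * f i + f i * e i) * pr e f i from rfl]
  rw [add_mul, mul_assoc, h.f_pr, mul_assoc, h.e_pr]
  rfl

omit [FiniteDimensional K H] in
lemma sq (i : ι) : (e i + f i) * (e i + f i) = pr e f i := by
  rw [add_mul, mul_add, mul_add, h.ee, h.ff, zero_add, add_zero]
  rfl

omit [FiniteDimensional K H] in
lemma ce_pr {i k : ι} (hik : i ≠ k) : e i * pr e f k = pr e f k * e i := by
  rw [pr, mul_add, add_mul, ← mul_assoc, h.cee i k hik, mul_assoc (e k), h.cef i k hik,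
    ← mul_assoc (e k), ← mul_assoc (e i), h.cef i k hik, mul_assoc (f k), h.cee i k hik,
    ← mul_assoc (f k)]

omit [FiniteDimensional K H] in
lemma cf_pr {i k : ι} (hik : i ≠ k) : f i * pr e f k = pr e f k * f i := by
  rw [pr, mul_add, add_mul, ← mul_assoc, ← h.cef k i hik.symm, mul_assoc (e k), h.cff i k hik,
    ← mul_assoc (e k), ← mul_assoc (f i), h.cff i k hik, mul_assoc (f k), ← h.cef k i hik.symm,
    ← mul_assoc (f k)]

variable [DecidableEq ι]

/-- **The kernel of the sum of the nilpotent operators.** -/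
theorem half_kernel (s : Finset ι) : ∀ (Q : Submodule K H), (∀ i ∈ s, ∀ x ∈ Q, e i x ∈ Q) →
    (∀ i ∈ s, ∀ x ∈ Q, f i x ∈ Q) →
    2 * Module.finrank K (Q ⊓ LinearMap.ker (∑ i ∈ s, e i) : Submodule K H) ≤
      Module.finrank K Q +
        Module.finrank K (Q ⊓ ⨅ i ∈ s, LinearMap.ker (pr e f i) : Submodule K H) := by
  induction s using Finset.induction_on with
  | empty =>
    intro Q _ _
    have h1 : (Q ⊓ ⨅ i ∈ (∅ : Finset ι), LinearMap.ker (pr e f i) : Submodule K H) = Q := by
      simp
    have h2 : (Q ⊓ LinearMap.ker (∑ i ∈ (∅ : Finset ι), e i) : Submodule K H) = Q := by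
      simp
    rw [h1, h2]
    omega
  | insert a s ha ih =>
    intro Q he hf
    have hea := he a (Finset.mem_insert_self a s)
    have hfa := hf a (Finset.mem_insert_self a s)
    have hes : ∀ i ∈ s, ∀ x ∈ Q, e i x ∈ Q := fun i hi => he i (Finset.mem_insert_of_mem hi)
    have hfs : ∀ i ∈ s, ∀ x ∈ Q, f i x ∈ Q := fun i hi => hf i (Finset.mem_insert_of_mem hi)
    have hpa : ∀ x ∈ Q, pr e f a x ∈ Q := fun x hx =>
      Submodule.add_mem _ (hea _ (hfa _ hx)) (hfa _ (hea _ hx))
    have hne : ∀ i ∈ s, i ≠ a := fun i hi hia => ha (hia ▸ hi)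
    set T := ∑ i ∈ insert a s, e i with hT
    set T' := ∑ i ∈ s, e i with hT'
    have hTT : T = e a + T' := Finset.sum_insert ha
    have hTf : T' * f a = f a * T' := by
      rw [hT', Finset.sum_mul, Finset.mul_sum]
      exact Finset.sum_congr rfl fun i hi => h.cef i a (hne i hi)
    have hTp : T' * pr e f a = pr e f a * T' := by
      rw [hT', Finset.sum_mul, Finset.mul_sum]
      exact Finset.sum_congr rfl fun i hi => h.ce_pr (hne i hi)
    have hTp' : T * pr e f a = pr e f a * T := by
      rw [hTT, add_mul, mul_add, hTp, h.e_pr, h.pr_e]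
    -- the part in the range of the idempotent
    have k1 := finrank_split2 (h.pr_idem a) hpa
    have k2 := finrank_split2 (h.pr_idem a) (Q := Q ⊓ LinearMap.ker T) (by
      rintro x ⟨hx, hx'⟩
      refine ⟨hpa x hx, ?_⟩
      have hx'' : T x = 0 := hx'
      change T (pr e f a x) = 0
      rw [← Module.End.mul_apply, hTp', Module.End.mul_apply, hx'', map_zero])
    have k3 := ih (Q ⊓ LinearMap.ker (pr e f a)) (by
      rintro i hi x ⟨hx, hx'⟩
      refine ⟨hes i hi x hx, ?_⟩
      have hx'' : pr e f a x = 0 := hx'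
      change pr e f a (e i x) = 0
      rw [← Module.End.mul_apply, ← h.ce_pr (hne i hi), Module.End.mul_apply, hx'', map_zero]) (by
      rintro i hi x ⟨hx, hx'⟩
      refine ⟨hfs i hi x hx, ?_⟩
      have hx'' : pr e f a x = 0 := hx'
      change pr e f a (f i x) = 0
      rw [← Module.End.mul_apply, ← h.cf_pr (hne i hi), Module.End.mul_apply, hx'', map_zero])
    have e1 : (Q ⊓ LinearMap.ker (pr e f a) ⊓ LinearMap.ker T' : Submodule K H) =
        Q ⊓ LinearMap.ker T ⊓ LinearMap.ker (pr e f a) := by
      ext x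
      constructor
      · rintro ⟨⟨h1, h2⟩, h3⟩
        refine ⟨⟨h1, ?_⟩, h2⟩
        have h2' : pr e f a x = 0 := h2
        have h3' : T' x = 0 := h3
        change T x = 0
        rw [hTT, LinearMap.add_apply, h3', ← h.e_pr a, Module.End.mul_apply, h2', map_zero,
          add_zero]
      · rintro ⟨⟨h1, h2⟩, h3⟩
        refine ⟨⟨h1, h3⟩, ?_⟩
        have h2' : T x = 0 := h2
        have h3' : pr e f a x = 0 := h3
        change T' x = 0
        rw [hTT, LinearMap.add_apply, ← h.e_pr a, Module.End.mul_apply, h3', map_zero,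
          zero_add] at h2'
        exact h2'
    have e2 : (Q ⊓ LinearMap.ker (pr e f a) ⊓ ⨅ i ∈ s, LinearMap.ker (pr e f i) :
        Submodule K H) = Q ⊓ ⨅ i ∈ insert a s, LinearMap.ker (pr e f i) := by
      rw [Finset.iInf_insert, inf_assoc]
    rw [e1, e2] at k3
    -- the kernel of `f a`
    set Q1 := Q ⊓ LinearMap.range (pr e f a) with hQ1
    set L := Q ⊓ LinearMap.ker T ⊓ LinearMap.range (pr e f a) with hL
    have hLQ : L ≤ Q1 := by
      rintro x ⟨⟨h1, h2⟩, h3⟩
      exact ⟨h1, h3⟩
    have hstab : ∀ x ∈ Q1, f a x ∈ Q1 := by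
      rintro x ⟨h1, h2⟩
      refine ⟨hfa x h1, f a x, ?_⟩
      rw [← Module.End.mul_apply, h.pr_f]
    have k4 : Module.finrank K Q1 ≤
        2 * Module.finrank K (Q1 ⊓ LinearMap.ker (f a) : Submodule K H) := by
      have h1 := LinearMap.finrank_range_add_finrank_ker ((f a).restrict hstab)
      have h2 : Module.finrank K (LinearMap.ker ((f a).restrict hstab)) ≤
          Module.finrank K (Q1 ⊓ LinearMap.ker (f a) : Submodule K H) := by
        rw [← Submodule.finrank_map_subtype_eq Q1]
        apply Submodule.finrank_mono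
        rintro _ ⟨⟨x, hx⟩, hx', rfl⟩
        exact ⟨hx, congrArg Subtype.val (LinearMap.mem_ker.1 hx')⟩
      have h3 : Module.finrank K (LinearMap.range ((f a).restrict hstab)) ≤
          Module.finrank K (Q1 ⊓ LinearMap.ker (f a) : Submodule K H) := by
        rw [← Submodule.finrank_map_subtype_eq Q1]
        apply Submodule.finrank_mono
        rintro _ ⟨_, ⟨⟨x, hx⟩, rfl⟩, rfl⟩
        refine ⟨hstab x hx, ?_⟩
        change f a (f a x) = 0
        rw [← Module.End.mul_apply, h.ff, LinearMap.zero_apply]
      omega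
    have k5 : Module.finrank K L + Module.finrank K (Q1 ⊓ LinearMap.ker (f a) : Submodule K H) ≤
        Module.finrank K Q1 := by
      have h1 := Submodule.finrank_sup_add_finrank_inf_eq L (Q1 ⊓ LinearMap.ker (f a))
      have h2 : L ⊓ (Q1 ⊓ LinearMap.ker (f a)) = ⊥ := by
        rw [eq_bot_iff]
        rintro x ⟨⟨⟨h1, h2⟩, y, rfl⟩, -, h4⟩
        have h2' : T (pr e f a y) = 0 := h2
        have h4' : f a (pr e f a y) = 0 := h4
        set x := pr e f a y with hx
        have h5 : pr e f a x = x := by rw [hx, ← Module.End.mul_apply, h.pr_idem]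
        rw [hTT, LinearMap.add_apply] at h2'
        have h6 : e a x = - T' x := by rw [eq_neg_iff_add_eq_zero]; exact h2'
        rw [← h5]
        change e a (f a x) + f a (e a x) ∈ _
        rw [h4', map_zero, zero_add, h6, map_neg, ← Module.End.mul_apply, ← hTf,
          Module.End.mul_apply, h4', map_zero, neg_zero]
        exact Submodule.zero_mem _
      rw [h2, finrank_bot, add_zero] at h1
      rw [← h1]
      exact Submodule.finrank_mono (sup_le hLQ inf_le_left)
    omega

/-- **A generic combination of the sums.** -/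
theorem exists_generic [Infinite K] (s : Finset ι) :
    ∃ c : ι → K, LinearMap.ker (∑ i ∈ s, c i • (e i + f i)) ≤
      ⨅ i ∈ s, LinearMap.ker (pr e f i) := by
  induction s using Finset.induction_on with
  | empty => exact ⟨fun _ => 0, by simp⟩
  | insert a s ha ih =>
    obtain ⟨c, hc⟩ := ih
    have hne : ∀ i ∈ s, i ≠ a := fun i hi hia => ha (hia ▸ hi)
    set T' := ∑ i ∈ s, c i • (e i + f i) with hT'
    have hcm : T' * (e a + f a) = (e a + f a) * T' := by
      rw [hT', Finset.sum_mul, Finset.mul_sum]
      refine Finset.sum_congr rfl fun i hi => ?_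
      rw [smul_mul_assoc, mul_smul_comm, add_mul, mul_add, mul_add, add_mul, mul_add, mul_add,
        h.cee i a (hne i hi), h.cef i a (hne i hi), h.cff i a (hne i hi),
        ← h.cef a i (hne i hi).symm]
      congr 1
      abel
    -- the choice of the coefficient
    obtain ⟨z, hz⟩ : ∃ z : K, ((X : K[X]) * (T' * T').charpoly.comp (X ^ 2)).eval z ≠ 0 := by
      have h1 : ((X : K[X]) * (T' * T').charpoly.comp (X ^ 2)) ≠ 0 := by
        apply mul_ne_zero X_ne_zero
        have h2 : (T' * T').charpoly.Monic := LinearMap.charpoly_monic _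
        have h3 : ((T' * T').charpoly.comp (X ^ 2)).Monic :=
          h2.comp (monic_X_pow 2) (by simp)
        exact h3.ne_zero
      by_contra hcon
      push Not at hcon
      exact h1 (Polynomial.funext fun z => by rw [hcon z, eval_zero])
    rw [eval_mul, eval_X, eval_comp, eval_pow, eval_X] at hz
    obtain ⟨hz0, hz1⟩ := mul_ne_zero_iff.1 hz
    refine ⟨Function.update c a z, ?_⟩
    have hsum : ∑ i ∈ insert a s, (Function.update c a z) i • (e i + f i) =
        z • (e a + f a) + T' := by
      rw [Finset.sum_insert ha, Function.update_self]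
      congr 1
      refine Finset.sum_congr rfl fun i hi => ?_
      rw [Function.update_of_ne (hne i hi)]
    rw [hsum, Finset.iInf_insert]
    intro x hx
    rw [LinearMap.mem_ker, LinearMap.add_apply, LinearMap.smul_apply] at hx
    set m := e a + f a with hm
    have hmm : m * m = pr e f a := h.sq a
    have hmp : m * pr e f a = m := by rw [hm, add_mul, h.e_pr, h.f_pr]
    have h1 : z • m x = - T' x := eq_neg_iff_add_eq_zero.2 hx
    have h2 : (z ^ 2) • pr e f a x = (T' * T') x := by
      have h3 : (z ^ 2) • pr e f a x = z • m (z • m x) := by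
        rw [map_smul, smul_smul, ← Module.End.mul_apply m m, hmm, pow_two]
      have h4 : z • m (- T' x) = (T' * T') x := by
        rw [map_neg, ← Module.End.mul_apply m, ← hcm, Module.End.mul_apply, smul_neg,
          ← map_smul T', h1, map_neg, neg_neg]
        rfl
      rw [h3, h1, h4]
    have hcp : (T' * T') * pr e f a = pr e f a * (T' * T') := by
      rw [← hmm]
      have hc1 : Commute T' m := hcm
      exact ((hc1.mul_left hc1).mul_right (hc1.mul_left hc1)).eq
    have h4 : (T' * T') (pr e f a x) = (z ^ 2) • pr e f a x := by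
      rw [← Module.End.mul_apply, hcp, Module.End.mul_apply, ← h2, map_smul,
        ← Module.End.mul_apply, h.pr_idem]
    have h5 : pr e f a x = 0 := by
      by_contra hne'
      apply hz1
      rw [← IsRoot.def, ← Module.End.hasEigenvalue_iff_isRoot_charpoly]
      exact Module.End.hasEigenvalue_of_hasEigenvector
        (x := pr e f a x) ⟨Module.End.mem_eigenspace_iff.2 h4, hne'⟩
    refine ⟨h5, hc ?_⟩
    rw [LinearMap.mem_ker]
    have h6 : m x = 0 := by
      rw [← hmp, Module.End.mul_apply, h5, map_zero]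
    rw [h6, smul_zero, zero_add] at hx
    exact hx

end Rel

end Pool.Agent.N181.Gap
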