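import Pool.Agent.N181.Gap.Tot
import Pool.Agent.N181.Gap.LinG
import Pool.Agent.N181.Gap.GDefs

/-!
# The families of operators on the powers of a variety
-/

set_option autoImplicit false

open CategoryTheory AlgebraicGeometry TensorProduct

universe u v

namespace Pool.Agent.N181.Gap

open Pool.Agent.H914 Pool.Agent.H914.VarClass Pool.Agent.H914.VarClass.Obj
  Pool.Agent.H914.WeilCohomology Pool.Agent.W534 Pool.Agent.TH132.P Pool.Agent.N181.Mod

variable {k : Type u} [Field k] {𝒱 : VarClass k} {ops : CycleOps 𝒱}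
  {W : WeilCohomology.{u, v} ops} {U X Y Z Z' S : 𝒱.Obj} {p : ℕ}

section Ext

/-- The rank of an external product of operators. -/
lemma finrank_range_extOp (φ : Module.End W.K (W.H Y)) (ψ : Module.End W.K (W.H Z)) :
    Module.finrank W.K (LinearMap.range (extOp W φ ψ)) ≤
      Module.finrank W.K (LinearMap.range φ) * Module.finrank W.K (LinearMap.range ψ) := by
  set M := TensorProduct.map (LinearMap.range φ).subtype (LinearMap.range ψ).subtype with hM
  have h1 : LinearMap.range (extOp W φ ψ) ≤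
      (LinearMap.range M).map (kappa W Y Z).toLinearMap := by
    rintro _ ⟨x, rfl⟩
    refine ⟨TensorProduct.map φ ψ ((kappa W Y Z).symm x), ?_, rfl⟩
    generalize (kappa W Y Z).symm x = z
    induction z using TensorProduct.induction_on with
    | zero => rw [map_zero]; exact Submodule.zero_mem _
    | add a b ha hb => rw [map_add]; exact Submodule.add_mem _ ha hb
    | tmul a b => exact ⟨⟨φ a, a, rfl⟩ ⊗ₜ ⟨ψ b, b, rfl⟩, rfl⟩
  calc Module.finrank W.K (LinearMap.range (extOp W φ ψ))
      ≤ Module.finrank W.K ((LinearMap.range M).map (kappa W Y Z).toLinearMap) :=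
        Submodule.finrank_mono h1
    _ ≤ Module.finrank W.K (LinearMap.range M) := Submodule.finrank_map_le _ _
    _ ≤ Module.finrank W.K (LinearMap.range φ ⊗[W.K] LinearMap.range ψ) :=
        LinearMap.finrank_range_le M
    _ = _ := Module.finrank_tensorProduct

/-- The class is central, together with its pull-backs. -/
def Cen (W : WeilCohomology.{u, v} ops) {Y : 𝒱.Obj} (a : W.H Y) : Prop :=
  ∀ (Q : 𝒱.Obj) (f : Q ⟶ Y) (x : W.H Q), W.map f a * x = x * W.map f a

lemma Cen.one (Y : 𝒱.Obj) : Cen W (1 : W.H Y) := fun Q f x => by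
  rw [map_one, one_mul, mul_one]

lemma cen_of_tot {𝒮 : Sys W} {a : W.H Y} (ha : a ∈ tot 𝒮 Y) : Cen W a :=
  fun _ f x => tot_comm (tot_map f ha) x

lemma top_ext' {a b : W.H Y} (ha : Cen W a) (hb : Cen W b) (g : X ⟶ Y) (h : X ⟶ S) :
    extOp W (1 : Module.End W.K (W.H U)) (top W g h a b) =
      top W (snd U X ≫ g) (idp U h) a b := by
  apply ext_kunneth_lin
  intro x s
  have ha' := ha _ (snd U X ≫ g)
  have hb' := hb _ (snd U X ≫ g)
  rw [W.map_comp] at ha' hb'
  rw [extOp_tmul, top_apply, top_apply, Module.End.one_apply, W.map_comp, W.map_comp,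
    ← mul_assoc, hb', mul_assoc, ← map_mul, push_idp, map_idp, ← mul_assoc, ha',
    mul_assoc, ← map_mul]

end Ext

section Pairs

variable {s t u' : W.H Y}

/-- The four numbers. -/
structure IsPair (W : WeilCohomology.{u, v} ops) {Y : 𝒱.Obj} (s t u' : W.H Y) : Prop where
  cs : Cen W s
  ct : Cen W t
  cu : Cen W u'
  ts : W.tr Y (t * s) = 1
  u1 : W.tr Y (u' * 1) = 1
  t1 : W.tr Y (t * 1) = 0
  us : W.tr Y (u' * s) = 0

variable (h : IsPair W s t u')

include h

lemma IsPair.p_eq : rk W 1 t * rk W s u' + rk W s u' * rk W 1 t = rk W 1 u' + rk W s t := by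
  rw [rk_mul, rk_mul, h.ts, h.u1, one_smul, one_smul]

lemma IsPair.p_idem : (rk W 1 u' + rk W s t) * (rk W 1 u' + rk W s t) =
    rk W 1 u' + rk W s t := by
  rw [add_mul, mul_add, mul_add, rk_mul, rk_mul, rk_mul, rk_mul, h.ts, h.u1, h.t1, h.us,
    one_smul, one_smul, zero_smul, zero_smul, add_zero, zero_add]

lemma IsPair.finrank_compl : Module.finrank W.K
    (LinearMap.range (1 - (rk W 1 u' + rk W s t))) + 2 = Module.finrank W.K (W.H Y) := by
  set P := rk W 1 u' + rk W s t with hP
  have hid : P * P = P := h.p_idem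
  have hP1 : P 1 = 1 := by
    rw [hP, LinearMap.add_apply, rk_apply, rk_apply, h.u1, h.t1, one_smul, zero_smul, add_zero]
  have hPs : P s = s := by
    rw [hP, LinearMap.add_apply, rk_apply, rk_apply, h.us, h.ts, one_smul, zero_smul, zero_add]
  have h1 : LinearMap.range (1 - P) = LinearMap.ker P := by
    ext x
    constructor
    · rintro ⟨y, rfl⟩
      rw [LinearMap.mem_ker, ← Module.End.mul_apply, mul_sub, mul_one, hid, sub_self,
        LinearMap.zero_apply]
    · intro hx
      refine ⟨x, ?_⟩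
      rw [LinearMap.sub_apply, LinearMap.mem_ker.1 hx, sub_zero, Module.End.one_apply]
  have h2 : LinearMap.range P = Submodule.span W.K (Set.range ![(1 : W.H Y), s]) := by
    apply le_antisymm
    · rintro _ ⟨x, rfl⟩
      rw [hP, LinearMap.add_apply, rk_apply, rk_apply]
      exact Submodule.add_mem _
        (Submodule.smul_mem _ _ (Submodule.subset_span ⟨0, rfl⟩))
        (Submodule.smul_mem _ _ (Submodule.subset_span ⟨1, rfl⟩))
    · rw [Submodule.span_le]
      rintro _ ⟨i, rfl⟩
      fin_cases i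
      · exact ⟨1, hP1⟩
      · exact ⟨s, hPs⟩
  have h3 : LinearIndependent W.K ![(1 : W.H Y), s] := by
    rw [LinearIndependent.pair_iff]
    intro a b hab
    have e1 := congrArg (fun x => W.tr Y (u' * x)) hab
    have e2 := congrArg (fun x => W.tr Y (t * x)) hab
    simp only [mul_add, mul_smul_comm, map_add, map_smul, h.us, h.ts, smul_eq_mul,
      mul_one, mul_zero, add_zero, map_zero] at e1 e2
    have e3 := h.u1
    have e4 := h.t1
    rw [mul_one] at e3 e4
    rw [e3, mul_one] at e1
    rw [e4, mul_zero, zero_add] at e2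
    exact ⟨e1, e2⟩
  have h4 := finrank_span_eq_card h3
  rw [← h2, Fintype.card_fin] at h4
  rw [h1, ← LinearMap.finrank_range_add_finrank_ker P, h4]
  omega

end Pairs

/-- The families of operators. -/
structure GFam (W : WeilCohomology.{u, v} ops) {Y : 𝒱.Obj} (s t u' : W.H Y) (X : 𝒱.Obj)
    (j n : ℕ) (E F : Fin j → Module.End W.K (W.H X)) : Prop where
  rel : Rel E F
  e_form : ∀ i, ∃ (S : 𝒱.Obj) (g : X ⟶ Y) (h : X ⟶ S), E i = top W g h 1 t
  f_form : ∀ i, ∃ (S : 𝒱.Obj) (g : X ⟶ Y) (h : X ⟶ S), F i = top W g h s u'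
  rank : ∃ (Q : Module.End W.K (W.H X)) (a : Fin j → Module.End W.K (W.H X)),
    1 - Q = ∑ i, a i * pr E F i ∧ Module.finrank W.K (LinearMap.range Q) ≤ n

lemma extOp_comm (φ : Module.End W.K (W.H Y)) (ψ : Module.End W.K (W.H Z)) :
    extOp W φ (1 : Module.End W.K (W.H Z)) * extOp W (1 : Module.End W.K (W.H Y)) ψ =
      extOp W 1 ψ * extOp W φ 1 := by
  rw [extOp_mul, extOp_mul, mul_one, one_mul, mul_one, one_mul]

/-- **The step.** -/
theorem gfam_step {s t u' : W.H Y} (h : IsPair W s t u') {R : 𝒱.Obj} {j n : ℕ}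
    {E F : Fin j → Module.End W.K (W.H R)} (hG : GFam W s t u' R j n E F) :
    ∃ E' F' : Fin (j + 1) → Module.End W.K (W.H (Y.prod R)),
      GFam W s t u' (Y.prod R) (j + 1) ((Module.finrank W.K (W.H Y) - 2) * n) E' F' := by
  obtain ⟨Q, a, hQ, hn⟩ := hG.rank
  set e : Module.End W.K (W.H Y) := rk W 1 t with he
  set f : Module.End W.K (W.H Y) := rk W s u' with hf
  set P : Module.End W.K (W.H Y) := rk W 1 u' + rk W s t with hP
  have hee : e * e = 0 := by rw [he, rk_mul, h.t1, zero_smul]
  have hff : f * f = 0 := by rw [hf, rk_mul, h.us, zero_smul]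
  have hpe : e * f + f * e = P := h.p_eq
  have hefe : e * f * e = e := by
    rw [he, hf, rk_mul, h.ts, one_smul, rk_mul, h.u1, one_smul]
  have hfef : f * e * f = f := by
    rw [he, hf, rk_mul, h.u1, one_smul, rk_mul, h.ts, one_smul]
  set E' : Fin (j + 1) → Module.End W.K (W.H (Y.prod R)) :=
    Fin.cons (extOp W e 1) (fun i => extOp W 1 (E i)) with hE'
  set F' : Fin (j + 1) → Module.End W.K (W.H (Y.prod R)) :=
    Fin.cons (extOp W f 1) (fun i => extOp W 1 (F i)) with hF'
  have hE0 : E' 0 = extOp W e 1 := rfl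
  have hEs : ∀ i : Fin j, E' i.succ = extOp W 1 (E i) := fun i => rfl
  have hF0 : F' 0 = extOp W f 1 := rfl
  have hFs : ∀ i : Fin j, F' i.succ = extOp W 1 (F i) := fun i => rfl
  have hrel : Rel E' F' := by
    refine ⟨?_, ?_, ?_, ?_, ?_, ?_, ?_⟩
    · refine Fin.cases ?_ fun i => ?_
      · rw [hE0, extOp_mul, hee, extOp_zero_left]
      · rw [hEs, extOp_mul, hG.rel.ee, extOp_zero_right]
    · refine Fin.cases ?_ fun i => ?_
      · rw [hF0, extOp_mul, hff, extOp_zero_left]
      · rw [hFs, extOp_mul, hG.rel.ff, extOp_zero_right]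
    · refine Fin.cases ?_ fun i => ?_
      · rw [hE0, hF0, extOp_mul, extOp_mul, hefe, mul_one, mul_one]
      · rw [hEs, hFs, extOp_mul, extOp_mul, hG.rel.efe, mul_one, mul_one]
    · refine Fin.cases ?_ fun i => ?_
      · rw [hE0, hF0, extOp_mul, extOp_mul, hfef, mul_one, mul_one]
      · rw [hEs, hFs, extOp_mul, extOp_mul, hG.rel.fef, mul_one, mul_one]
    · refine Fin.cases ?_ fun i => ?_
      · refine Fin.cases ?_ fun l => ?_
        · intro h0; exact absurd rfl h0
        · intro _
          rw [hE0, hEs]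
          exact extOp_comm _ _
      · refine Fin.cases ?_ fun l => ?_
        · intro _
          rw [hE0, hEs]
          exact (extOp_comm _ _).symm
        · intro h0
          rw [hEs, hEs, extOp_mul, extOp_mul, hG.rel.cee i l (fun h1 => h0 (by rw [h1]))]
    · refine Fin.cases ?_ fun i => ?_
      · refine Fin.cases ?_ fun l => ?_
        · intro h0; exact absurd rfl h0
        · intro _
          rw [hE0, hFs]
          exact extOp_comm _ _
      · refine Fin.cases ?_ fun l => ?_
        · intro _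
          rw [hF0, hEs]
          exact (extOp_comm _ _).symm
        · intro h0
          rw [hEs, hFs, extOp_mul, extOp_mul, hG.rel.cef i l (fun h1 => h0 (by rw [h1]))]
    · refine Fin.cases ?_ fun i => ?_
      · refine Fin.cases ?_ fun l => ?_
        · intro h0; exact absurd rfl h0
        · intro _
          rw [hF0, hFs]
          exact extOp_comm _ _
      · refine Fin.cases ?_ fun l => ?_
        · intro _
          rw [hF0, hFs]
          exact (extOp_comm _ _).symm
        · intro h0
          rw [hFs, hFs, extOp_mul, extOp_mul, hG.rel.cff i l (fun h1 => h0 (by rw [h1]))]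
  have hp0 : pr E' F' 0 = extOp W P 1 := by
    rw [pr, hE0, hF0, extOp_mul, extOp_mul, mul_one, ← extOp_add_left, hpe]
  have hps : ∀ i : Fin j, pr E' F' i.succ = extOp W 1 (pr E F i) := by
    intro i
    rw [pr, hEs, hFs, extOp_mul, extOp_mul, mul_one, ← extOp_add_right]
    rfl
  refine ⟨E', F', hrel, ?_, ?_, extOp W (1 - P) Q,
    Fin.cons 1 (fun i => extOp W (1 - P) (a i)), ?_, ?_⟩
  · refine Fin.cases ⟨R, fst Y R, snd Y R, ?_⟩ fun i => ?_
    · rw [hE0, top_fst]
    · obtain ⟨S, g, h', hi⟩ := hG.e_form i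
      exact ⟨Y.prod S, snd Y R ≫ g, idp Y h', by
        rw [hEs, hi, top_ext' (Cen.one Y) h.ct]⟩
  · refine Fin.cases ⟨R, fst Y R, snd Y R, ?_⟩ fun i => ?_
    · rw [hF0, top_fst]
    · obtain ⟨S, g, h', hi⟩ := hG.f_form i
      exact ⟨Y.prod S, snd Y R ≫ g, idp Y h', by
        rw [hFs, hi, top_ext' h.cs h.cu]⟩
  · rw [Fin.sum_univ_succ, Fin.cons_zero, one_mul, hp0]
    have e1 : ∑ i : Fin j, (Fin.cons (1 : Module.End W.K (W.H (Y.prod R)))
        (fun i => extOp W (1 - P) (a i)) : Fin (j + 1) → Module.End W.K (W.H (Y.prod R)))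
          i.succ * pr E' F' i.succ = extOp W (1 - P) (1 - Q) := by
      rw [hQ, extOp_sum']
      refine Finset.sum_congr rfl fun i _ => ?_
      rw [Fin.cons_succ, hps, extOp_mul, mul_one]
    rw [e1]
    have e2 : extOp W (1 - P) (1 - Q) + extOp W (1 - P) Q = extOp W (1 - P) 1 := by
      rw [← extOp_add_right, sub_add_cancel]
    have e3 : extOp W (1 - P) (1 : Module.End W.K (W.H R)) + extOp W P 1 = 1 := by
      rw [← extOp_add_left, sub_add_cancel, extOp_one]
    have e4 : (1 : Module.End W.K (W.H (Y.prod R))) =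
        extOp W (1 - P) (1 - Q) + extOp W (1 - P) Q + extOp W P 1 := by
      rw [e2, e3]
    rw [sub_eq_iff_eq_add, e4]
    abel
  · refine (finrank_range_extOp _ _).trans ?_
    have e1 : Module.finrank W.K (LinearMap.range (1 - P)) + 2 = Module.finrank W.K (W.H Y) :=
      h.finrank_compl
    exact Nat.mul_le_mul (by omega) hn

/-- **The families on the powers.** -/
theorem exists_gfam {s t u' : W.H Y} (h : IsPair W s t u') (Z : 𝒱.Obj) (j : ℕ) :
    ∃ E F : Fin j → Module.End W.K (W.H (powProd Y Z j)), GFam W s t u' (powProd Y Z j) j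
      ((Module.finrank W.K (W.H Y) - 2) ^ j * Module.finrank W.K (W.H Z)) E F := by
  induction j with
  | zero =>
    refine ⟨fun i => i.elim0, fun i => i.elim0, ⟨⟨fun i => i.elim0, fun i => i.elim0,
      fun i => i.elim0, fun i => i.elim0, fun i => i.elim0, fun i => i.elim0,
      fun i => i.elim0⟩, fun i => i.elim0, fun i => i.elim0,
      ⟨1, fun i => i.elim0, by rw [sub_self]; simp, ?_⟩⟩⟩
    rw [pow_zero, one_mul]
    exact Submodule.finrank_le _
  | succ j ih =>
    obtain ⟨E, F, hG⟩ := ih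
    rw [pow_succ', mul_assoc]
    exact gfam_step h hG

end Pool.Agent.N181.Gap
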