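import Mathlib

/-!
# Exponential bounds
-/

set_option autoImplicit false

open Filter Topology

namespace Pool.Agent.N181.Gap

lemma poly_mul_pow (h : ℕ) {μ : ℝ} (h0 : 0 < μ) (h1 : μ < 1) :
    ∃ C θ : ℝ, 0 ≤ C ∧ 0 ≤ θ ∧ θ < 1 ∧ ∀ J : ℕ, ((J : ℝ) + 1) ^ h * μ ^ J ≤ C * θ ^ J := by
  set θ : ℝ := (1 + μ) / 2 with hθ
  have hθ0 : 0 < θ := by rw [hθ]; linarith
  have hθ1 : θ < 1 := by rw [hθ]; linarith
  have hμθ : μ < θ := by rw [hθ]; linarith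
  set r : ℝ := μ / θ with hr
  have hr0 : 0 < r := div_pos h0 hθ0
  have hr1 : r < 1 := (div_lt_one hθ0).2 hμθ
  have ht := tendsto_pow_const_mul_const_pow_of_abs_lt_one h (r := r) (by
    rw [abs_of_pos hr0]; exact hr1)
  obtain ⟨C, hC⟩ := ht.bddAbove_range
  refine ⟨max C 0 / r, θ, by positivity, hθ0.le, hθ1, fun J => ?_⟩
  have h2 : ((J + 1 : ℕ) : ℝ) ^ h * r ^ (J + 1) ≤ C := hC ⟨J + 1, rfl⟩
  push_cast at h2
  have h3 : μ ^ J = r ^ J * θ ^ J := by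
    rw [hr, div_pow, div_mul_cancel₀ _ (pow_ne_zero _ hθ0.ne')]
  rw [h3, ← mul_assoc]
  apply mul_le_mul_of_nonneg_right _ (pow_nonneg hθ0.le _)
  rw [le_div_iff₀ hr0, mul_assoc, ← pow_succ]
  exact h2.trans (le_max_left _ _)

lemma exists_root {lam : ℝ} (h0 : 0 ≤ lam) (h1 : lam < 1) (m : ℕ) :
    ∃ μ : ℝ, 0 < μ ∧ μ < 1 ∧ lam ≤ μ ^ m := by
  have hm : (0 : ℝ) < (m : ℝ) + 2 := by positivity
  have hx0 : 0 < (1 - lam) / ((m : ℝ) + 2) := div_pos (by linarith) hm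
  have hx1 : (1 - lam) / ((m : ℝ) + 2) ≤ 1 / 2 := by
    rw [div_le_div_iff₀ hm (by norm_num)]
    have : (0 : ℝ) ≤ m := Nat.cast_nonneg m
    linarith
  refine ⟨1 - (1 - lam) / (m + 2), by linarith, by linarith, ?_⟩
  have h2 := one_add_mul_le_pow (a := -((1 - lam) / ((m : ℝ) + 2))) (by linarith) m
  rw [← sub_eq_add_neg] at h2
  refine le_trans ?_ h2
  have h3 : (m : ℝ) * ((1 - lam) / ((m : ℝ) + 2)) ≤ 1 - lam := by
    rw [← mul_div_assoc, div_le_iff₀ hm]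
    have : (0 : ℝ) ≤ m := Nat.cast_nonneg m
    nlinarith
  linarith

/-- The bound of the error. -/
lemma error_bound {lam : ℝ} (h0 : 0 ≤ lam) (h1 : lam < 1) {m : ℕ} (hm : 0 < m) (h : ℕ) {c : ℝ}
    (hc : 0 ≤ c) : ∃ C θ : ℝ, 0 ≤ C ∧ 0 ≤ θ ∧ θ < 1 ∧
      ∀ J : ℕ, c * (((J : ℝ) + 1) ^ h * lam ^ (J / m)) ≤ C * θ ^ J := by
  obtain ⟨μ, hμ0, hμ1, hμ⟩ := exists_root h0 h1 m
  obtain ⟨C, θ, hC, hθ0, hθ1, hb⟩ := poly_mul_pow h hμ0 hμ1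
  refine ⟨c * (C / μ ^ m), θ, by positivity, hθ0, hθ1, fun J => ?_⟩
  have h2 : lam ^ (J / m) ≤ μ ^ J / μ ^ m := by
    rw [le_div_iff₀ (pow_pos hμ0 m)]
    calc lam ^ (J / m) * μ ^ m ≤ (μ ^ m) ^ (J / m) * μ ^ m := by
          apply mul_le_mul_of_nonneg_right _ (pow_nonneg hμ0.le _)
          exact pow_le_pow_left₀ h0 hμ _
      _ = μ ^ (m * (J / m) + m) := by rw [← pow_mul, ← pow_add]
      _ ≤ μ ^ J := by
          apply pow_le_pow_of_le_one hμ0.le hμ1.le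
          have h3 := Nat.div_add_mod J m
          have h4 := Nat.mod_lt J hm
          omega
  have h5 : ((J : ℝ) + 1) ^ h * lam ^ (J / m) ≤ C / μ ^ m * θ ^ J := by
    calc ((J : ℝ) + 1) ^ h * lam ^ (J / m) ≤ ((J : ℝ) + 1) ^ h * (μ ^ J / μ ^ m) :=
          mul_le_mul_of_nonneg_left h2 (by positivity)
      _ = ((J : ℝ) + 1) ^ h * μ ^ J / μ ^ m := by rw [mul_div_assoc]
      _ ≤ C * θ ^ J / μ ^ m := div_le_div_of_nonneg_right (hb J) (pow_nonneg hμ0.le _)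
      _ = C / μ ^ m * θ ^ J := by ring
  rw [mul_assoc]
  exact mul_le_mul_of_nonneg_left h5 hc

end Pool.Agent.N181.Gap
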