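import Pool.Agent.N181.Gap.Iso
import Pool.Agent.N181.Gap.RealG

/-!
# The share of the algebraic cycles in the poles of the zeta functions of powers
-/

set_option autoImplicit false

open CategoryTheory AlgebraicGeometry TensorProduct

universe u v

namespace Pool.Agent.N181.Gap

open Pool.Agent.H914 Pool.Agent.H914.VarClass Pool.Agent.H914.VarClass.Obj
  Pool.Agent.H914.WeilCohomology Pool.Agent.W534 Pool.Agent.TH132.P Pool.Agent.N181.Mod
  Pool.Agent.H281R3.HT

variable {k : Type u} [Field k] {𝒱 : VarClass k} {ops : CycleOps 𝒱}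
  {W : WeilCohomology.{u, v} ops} {U X X' X'' Y Z Z' S : 𝒱.Obj} {p : ℕ} (Φ : FrobSystem W p)
  {σ : W.K →+* ℂ}

lemma exists_common (g : ℕ → ℕ) (hg : ∀ c, 0 < g c) (n : ℕ) :
    ∃ t, 0 < t ∧ ∀ c ∈ Finset.range n, g c ∣ t :=
  ⟨∏ c ∈ Finset.range n, g c, Finset.prod_pos fun c _ => hg c,
    fun _ hc => Finset.dvd_prod_of_mem g hc⟩

/-- The sum of the orders of the poles. -/
lemma poleSum_tot (hp : 1 < p) (hRH : RiemannHyp Φ σ Z) :
    PoleSum Φ σ Z (Module.finrank W.K (tot (sysT Φ) Z)) := by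
  choose g hg hg' using fun c => genT_spec Φ Z c
  obtain ⟨t, ht, htd⟩ := exists_common g hg (Z.dim + 1)
  refine ⟨t, ht, fun s hs hts => ?_⟩
  have h1 : ∀ c ∈ Finset.range (Z.dim + 1), meromorphicOrderAt (zetaFn Φ σ Z s) (c : ℂ) =
      ((-(Module.finrank W.K (genT Φ Z c) : ℤ) : ℤ) : WithTop ℤ) := by
    intro c hc
    rw [order_zetaFn Φ hp σ hRH hs (by have := Finset.mem_range.1 hc; omega),
      hg' c s hs ((htd c hc).trans hts)]
  rw [Finset.sum_congr rfl h1, ← WithTop.coe_sum, Finset.sum_neg_distrib, finrank_tot]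
  congr 2
  push_cast
  rfl

/-- The failure of the formula of Tate. -/
lemma fails_of (hp : 1 < p) (hRH : RiemannHyp Φ σ Y) (h : ¬ TateFormula Φ σ Y) :
    Fails (clT Φ) Y := by
  intro heq
  apply h
  intro c hc
  have h1 : Module.finrank W.K (tot (sysT Φ) Y) = rkSum ops Y +
      ∑ c ∈ Finset.range (Y.dim + 1), defect Φ Y c := by
    rw [finrank_tot, rkSum, ← Finset.sum_add_distrib]
    refine Finset.sum_congr rfl fun l hl => ?_
    exact (numRank_add_defect Y (by have := Finset.mem_range.1 hl; omega)).symm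
  have h2 : ∑ c ∈ Finset.range (Y.dim + 1), defect Φ Y c = 0 := by
    change rkSum ops Y = Module.finrank W.K (tot (sysT Φ) Y) at heq
    omega
  have h3 : defect Φ Y c = 0 :=
    Finset.sum_eq_zero_iff.1 h2 c (Finset.mem_range.2 (by omega))
  obtain ⟨t, ht, h4⟩ := poleDefect_of (σ := σ) hp hRH hc (numRank_add_defect (Φ := Φ) Y hc).symm
  refine ⟨t, ht, fun s hs hts => ?_⟩
  rw [h4 s hs hts, h3, Nat.cast_zero, add_zero]

lemma one_ne_of_fails {𝒮 : ClSys W} (h : Fails 𝒮 Y) : (1 : W.H Y) ≠ 0 := by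
  intro h1
  apply h
  have h2 : ∀ x : W.H Y, x = 0 := fun x => by rw [← one_mul x, h1, zero_mul]
  have h3 : Module.finrank W.K (tot 𝒮.toSys Y) = 0 := by
    have h4 : tot 𝒮.toSys Y = ⊥ := by
      rw [eq_bot_iff]
      intro x _
      rw [h2 x]
      exact Submodule.zero_mem _
    rw [h4, finrank_bot]
  have h4 := rkSum_le 𝒮 Y
  omega

/-- **The dichotomy.** -/
theorem main3 (W : WeilCohomology.{u, v} ops) [IsAlgClosed W.K] (σ : W.K →+* ℂ) (p : ℕ)
    (hp : p.Prime) (Φ : FrobSystem W p) (hRH : ∀ Z : 𝒱.Obj, RiemannHyp Φ σ Z) (Y : 𝒱.Obj) :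
    (∀ n, TateFormula Φ σ (powProd Y Y n)) ∨
    ∀ Z : 𝒱.Obj, ∃ C θ : ℝ, 0 ≤ C ∧ 0 ≤ θ ∧ θ < 1 ∧ ∀ n, ∃ P : ℕ,
      PoleSum Φ σ (powProd Y Z n) P ∧
      (rkSum ops (powProd Y Z n) : ℝ) ≤ (1 / 2 + C * θ ^ n) * P := by
  by_cases hall : ∀ n, TateFormula Φ σ (powProd Y Y n)
  · exact Or.inl hall
  right
  push Not at hall
  obtain ⟨n, hn⟩ := hall
  intro Z
  have hF := fails_of Φ hp.one_lt (hRH _) hn
  set m := n + 1 with hm
  set h := Module.finrank W.K (W.H Y) with hh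
  have hh' : Module.finrank W.K (W.H (powProd Y Y n)) = h ^ m := by
    rw [finrank_H_pow, hm, pow_succ]
  -- the unit of `Y` is non-zero
  have hY1 : (1 : W.H Y) ≠ 0 := by
    have h1 := one_ne_of_fails hF
    intro h0
    apply h1
    have h2 : (1 : W.H (powProd Y Y n)) = 0 := by
      rcases n with _ | n
      · exact h0
      · change (1 : W.H (Y.prod (powProd Y Y n))) = 0
        rw [← map_one (W.map (fst Y (powProd Y Y n))), h0, map_zero]
    exact h2
  have hh0 : 0 < h := by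
    rw [hh, Module.finrank_pos_iff]
    exact ⟨1, 0, hY1⟩
  -- the constants
  set lam : ℝ := ((h ^ m - 2 : ℕ) : ℝ) / (h : ℝ) ^ m with hlam
  have hhm : (0 : ℝ) < (h : ℝ) ^ m := by positivity
  have hlam0 : 0 ≤ lam := by rw [hlam]; positivity
  have hlam1 : lam < 1 := by
    rw [hlam, div_lt_one hhm]
    have h1 : h ^ m - 2 < h ^ m := Nat.sub_lt (pow_pos hh0 m) (by norm_num)
    exact_mod_cast h1
  set hz := Module.finrank W.K (W.H Z) with hhz
  obtain ⟨C, θ, hC, hθ0, hθ1, hb⟩ := error_bound hlam0 hlam1 (m := m) (by omega) h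
    (c := (h : ℝ) * hz / 2) (by positivity)
  refine ⟨C, θ, hC, hθ0, hθ1, fun J => ⟨_, poleSum_tot Φ hp.one_lt (hRH _), ?_⟩⟩
  set P := Module.finrank W.K (tot (sysT Φ) (powProd Y Z J)) with hP
  set R := rkSum ops (powProd Y Z J) with hR
  -- the inequality
  have hgap : 2 * R ≤ P + (h ^ m - 2) ^ (J / m) * (h ^ (J % m) * hz) := by
    have h1 := gap (clT Φ) hF (powProd Y Z (J % m)) (J / m)
    have h2 := isoc_powpow Y (powProd Y Z (J % m)) n (J / m)
    rw [powProd_add, ← hm, Nat.div_add_mod J m] at h2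
    rw [h2.rkSum W, hh', finrank_H_pow] at h1
    have h3 := h2.finrank_tot (sysT Φ)
    change 2 * R ≤ Module.finrank W.K (tot (sysT Φ) _) + _ at h1
    rw [h3] at h1
    exact h1
  by_cases hZ1 : (1 : W.H Z) = 0
  · -- the trivial case
    have hz0 : hz = 0 := by
      have h2 : ∀ x : W.H Z, x = 0 := fun x => by rw [← one_mul x, hZ1, zero_mul]
      rw [hhz, Module.finrank_zero_iff]
      exact ⟨fun a b => by rw [h2 a, h2 b]⟩
    rw [hz0, mul_zero, mul_zero, add_zero] at hgap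
    have h1 : (2 : ℝ) * R ≤ P := by exact_mod_cast hgap
    have h2 : 0 ≤ C * θ ^ J * P := by positivity
    nlinarith
  -- the growth
  have hgrow : (h : ℝ) ^ J ≤ h * (((J : ℝ) + 1) ^ h * P) := by
    have h1 := growth Φ hp.one_lt hRH Y Z hZ1 (J / 2)
    have h2 : Module.finrank W.K (tot (sysT Φ) (powProd Y Z (J / 2 + J / 2))) ≤ P := by
      rcases Nat.even_or_odd' J with ⟨N, hN | hN⟩
      · rw [hP, show J / 2 + J / 2 = J by omega]
      · have h3 := finrank_tot_prod (sysT Φ) hY1 (powProd Y Z (J / 2 + J / 2))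
        have h4 : Y.prod (powProd Y Z (J / 2 + J / 2)) = powProd Y Z J := by
          conv_rhs => rw [show J = (J / 2 + J / 2) + 1 by omega]
          rfl
        rw [h4] at h3
        exact h3
    have h5 : h ^ J ≤ h * (h ^ (J / 2)) ^ 2 := by
      rw [← pow_mul, ← pow_succ']
      exact Nat.pow_le_pow_right hh0 (by omega)
    have h6 : h ^ J ≤ h * ((J + 1) ^ h * P) := by
      refine h5.trans (Nat.mul_le_mul_left _ (h1.trans ?_))
      refine Nat.mul_le_mul (Nat.pow_le_pow_left (by omega) _) h2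
    exact_mod_cast h6
  -- the error term
  have herr : (((h ^ m - 2) ^ (J / m) * (h ^ (J % m) * hz) : ℕ) : ℝ) =
      (h : ℝ) ^ J * lam ^ (J / m) * hz := by
    push_cast
    rw [hlam, div_pow, ← pow_mul]
    have h1 : (h : ℝ) ^ J = (h : ℝ) ^ (m * (J / m)) * (h : ℝ) ^ (J % m) := by
      rw [← pow_add, Nat.div_add_mod]
    rw [h1]
    have h2 : (h : ℝ) ^ (m * (J / m)) ≠ 0 := by positivity
    field_simp
  have h1 : (2 : ℝ) * R ≤ P + (h : ℝ) ^ J * lam ^ (J / m) * hz := by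
    rw [← herr]
    exact_mod_cast hgap
  have h2 : (h : ℝ) ^ J * lam ^ (J / m) * hz ≤
      h * (((J : ℝ) + 1) ^ h * P) * lam ^ (J / m) * hz := by
    gcongr
  have h3 : h * (((J : ℝ) + 1) ^ h * P) * lam ^ (J / m) * hz =
      2 * ((h * hz / 2) * (((J : ℝ) + 1) ^ h * lam ^ (J / m))) * P := by ring
  have h4 : 2 * ((h * hz / 2) * (((J : ℝ) + 1) ^ h * lam ^ (J / m))) * P ≤
      2 * (C * θ ^ J) * P :=
    mul_le_mul_of_nonneg_right (mul_le_mul_of_nonneg_left (hb J) (by norm_num)) (by positivity)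
  nlinarith

end Pool.Agent.N181.Gap
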