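import Pool.Agent.N181.Gap.Adapt

/-!
# The growth of the number of generalised Tate classes on the powers
-/

set_option autoImplicit false

open CategoryTheory AlgebraicGeometry TensorProduct

universe u v

namespace Pool.Agent.N181.Gap

open Pool.Agent.H914 Pool.Agent.H914.VarClass Pool.Agent.H914.VarClass.Obj
  Pool.Agent.H914.WeilCohomology Pool.Agent.W534 Pool.Agent.TH132.P Pool.Agent.N181.Mod
  Pool.Agent.H281R3.HT

variable {k : Type u} [Field k] {𝒱 : VarClass k} {ops : CycleOps 𝒱}
  {W : WeilCohomology.{u, v} ops} {U X Y Z Z' S : 𝒱.Obj} {p : ℕ} (Φ : FrobSystem W p)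

/-- A basis adapted to the generalised eigenspaces. -/
lemma exists_basis {K V : Type*} [Field K] [IsAlgClosed K] [AddCommGroup V] [Module K V]
    [FiniteDimensional K V] (F : Module.End K V) :
    ∃ (b : Module.Basis (Fin (Module.finrank K V)) K V) (α : Fin (Module.finrank K V) → K),
      (∀ i, b i ∈ F.maxGenEigenspace (α i)) ∧
      ∀ (μ : K) (v : V) (i), v ∈ F.maxGenEigenspace μ → α i ≠ μ → b.repr v i = 0 := by
  classical
  have hint := isInternal_gen F
  set v : ∀ μ : K, Module.Basis (Fin (Module.finrank K (F.maxGenEigenspace μ))) K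
    (F.maxGenEigenspace μ) := fun μ => Module.finBasis K _ with hv
  set B := hint.collectedBasis v with hB
  have : Fintype (Σ μ : K, Fin (Module.finrank K (F.maxGenEigenspace μ))) :=
    FiniteDimensional.fintypeBasisIndex B
  have hcard : Fintype.card (Σ μ : K, Fin (Module.finrank K (F.maxGenEigenspace μ))) =
      Module.finrank K V := (Module.finrank_eq_card_basis B).symm
  set e := Fintype.equivFinOfCardEq hcard with he
  refine ⟨B.reindex e, fun i => (e.symm i).1, fun i => ?_, fun μ w i hw hi => ?_⟩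
  · rw [Module.Basis.reindex_apply]
    exact hint.collectedBasis_mem v _
  · rw [Module.Basis.repr_reindex_apply]
    exact hint.collectedBasis_repr_of_mem_ne v (Ne.symm hi) hw

/-- A family of generalised eigenvectors and a dual family. -/
lemma exists_adapted [IsAlgClosed W.K] (Y : 𝒱.Obj) {s : ℕ} (hs : 0 < s) :
    ∃ (b b' : Fin (Module.finrank W.K (W.H Y)) → W.H Y)
      (α α' : Fin (Module.finrank W.K (W.H Y)) → W.K), Ad Φ (Φ.e Y * s) Y b α ∧
      Ad Φ (Φ.e Y * s) Y b' α' ∧ ∀ i, α i * α' i = ((p : W.K) ^ (Φ.e Y * s)) ^ Y.dim := by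
  classical
  obtain ⟨b, α, hb, hrepr⟩ := exists_basis (frob Φ Y s)
  set F := frob Φ Y s with hF
  have hα : ∀ i, α i ≠ 0 := by
    intro i h0
    have h1 := hb i
    rw [h0, Module.End.mem_maxGenEigenspace] at h1
    obtain ⟨m, hm⟩ := h1
    rw [zero_smul, sub_zero] at hm
    exact b.ne_zero i (frob_pow_injective Φ s m (by rw [hm, map_zero]))
  -- the dual family
  set L : W.H Y →ₗ[W.K] Module.Dual W.K (W.H Y) :=
    { toFun := fun y => W.tr Y ∘ₗ LinearMap.mulRight W.K y
      map_add' := by intro a b; ext c; simp [mul_add]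
      map_smul' := by intro a b; ext c; simp } with hL
  have hLinj : Function.Injective L := by
    rw [← LinearMap.ker_eq_bot, LinearMap.ker_eq_bot']
    intro y hy
    apply nondeg_right
    intro a
    exact congrArg (fun f => f a) hy
  have hLsurj : Function.Surjective L := by
    refine (LinearMap.injective_iff_surjective_of_finrank_eq_finrank ?_).1 hLinj
    exact (Subspace.dual_finrank_eq (K := W.K) (V := W.H Y)).symm
  choose b' hb' using fun i => hLsurj (b.coord i)
  have htr : ∀ i x, W.tr Y (x * b' i) = b.repr x i := by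
    intro i x
    have h1 := congrArg (fun f => f x) (hb' i)
    exact h1
  have hcast : (card Φ Y s : W.K) = (p : W.K) ^ (Φ.e Y * s) := card_cast Φ s
  have hprod : ∀ i, α i * (((p : W.K) ^ (Φ.e Y * s)) ^ Y.dim * (α i)⁻¹) =
      ((p : W.K) ^ (Φ.e Y * s)) ^ Y.dim := by
    intro i
    rw [mul_comm, mul_assoc, inv_mul_cancel₀ (hα i), mul_one]
  refine ⟨b, b', α, fun i => ((p : W.K) ^ (Φ.e Y * s)) ^ Y.dim * (α i)⁻¹,
    ⟨b.linearIndependent, s, hs, rfl, hb⟩, ⟨?_, s, hs, rfl, ?_⟩, hprod⟩
  · rw [Fintype.linearIndependent_iff]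
    intro g hg i
    have h1 : W.tr Y (b i * ∑ l, g l • b' l) = g i := by
      rw [Finset.mul_sum, map_sum, Finset.sum_eq_single i]
      · rw [mul_smul_comm, map_smul, htr, Module.Basis.repr_self, Finsupp.single_eq_same,
          smul_eq_mul, mul_one]
      · intro l _ hl
        rw [mul_smul_comm, map_smul, htr, Module.Basis.repr_self,
          Finsupp.single_eq_of_ne hl, smul_zero]
      · intro h
        exact absurd (Finset.mem_univ _) h
    rw [hg, mul_zero, map_zero] at h1
    exact h1.symm
  · intro i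
    rw [Module.End.mem_maxGenEigenspace]
    refine ⟨Module.finrank W.K (W.H Y), ?_⟩
    apply nondeg_right
    intro a
    obtain ⟨x, rfl⟩ := frob_pow_surjective Φ s (Module.finrank W.K (W.H Y)) a
    rw [tr_adj_pow Φ (μ := α i) (by rw [hcast]; exact hprod i), htr]
    have h1 : b.repr (((frob Φ Y s - α i • (1 : Module.End W.K (W.H Y))) ^
        (Module.finrank W.K (W.H Y))) x) i = 0 := by
      have h2 : (b.coord i ∘ₗ ((frob Φ Y s - α i • (1 : Module.End W.K (W.H Y))) ^
          (Module.finrank W.K (W.H Y)))) = 0 := by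
        apply b.ext
        intro l
        rw [LinearMap.comp_apply, LinearMap.zero_apply, Module.Basis.coord_apply]
        by_cases hl : α l = α i
        · have h3 := hb l
          rw [hl, Module.End.maxGenEigenspace_eq_genEigenspace_finrank,
            Module.End.mem_genEigenspace_nat, LinearMap.mem_ker] at h3
          rw [h3, map_zero, Finsupp.zero_apply]
        · refine hrepr (α l) _ i ?_ (Ne.symm hl)
          have hst : ∀ (m : ℕ), ∀ y ∈ F.maxGenEigenspace (α l),
              ((F - α i • (1 : Module.End W.K (W.H Y))) ^ m) y ∈ F.maxGenEigenspace (α l) := by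
            intro m
            apply Module.End.pow_apply_mem_of_forall_mem
            intro y hy
            rw [LinearMap.sub_apply, LinearMap.smul_apply, Module.End.one_apply]
            exact Submodule.sub_mem _
              (Module.End.mapsTo_maxGenEigenspace_of_comm (Commute.refl F) (α l) hy)
              (Submodule.smul_mem _ _ hy)
          exact hst _ _ (hb l)
      exact congrArg (fun f => f x) h2
    rw [h1, mul_zero]

lemma powProd_add (Y Z : 𝒱.Obj) (a b : ℕ) : powProd Y (powProd Y Z a) b = powProd Y Z (b + a) := by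
  induction b with
  | zero => rw [Nat.zero_add]; rfl
  | succ b ih =>
    rw [Nat.succ_add]
    change Y.prod (powProd Y (powProd Y Z a) b) = Y.prod (powProd Y Z (b + a))
    rw [ih]

/-- **The growth of the number of generalised Tate classes on the powers.** -/
theorem growth {σ : W.K →+* ℂ} [IsAlgClosed W.K] (hp : 1 < p)
    (hRH : ∀ Z : 𝒱.Obj, RiemannHyp Φ σ Z) (Y Z : 𝒱.Obj) (hZ : (1 : W.H Z) ≠ 0) (N : ℕ) :
    (Module.finrank W.K (W.H Y) ^ N) ^ 2 ≤ (N + 1) ^ Module.finrank W.K (W.H Y) *
      Module.finrank W.K (tot (sysT Φ) (powProd Y Z (N + N))) := by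
  classical
  obtain ⟨b, b', α, α', hb, hb', hαα⟩ := exists_adapted Φ Y (Φ.e_pos Z)
  have hZ1 : Ad Φ (Φ.e Y * Φ.e Z) Z (fun _ : Unit => (1 : W.H Z)) (fun _ => 1) := by
    refine ⟨?_, Φ.e Y, Φ.e_pos Y, mul_comm _ _, fun _ => ?_⟩
    · rw [linearIndependent_unique_iff]
      exact hZ
    · rw [Module.End.mem_maxGenEigenspace]
      refine ⟨1, ?_⟩
      rw [pow_one, LinearMap.sub_apply, frob_apply, map_one, one_smul, Module.End.one_apply,
        sub_self]
  obtain ⟨r, hr, d, hd⟩ := hb.pow hZ1 N
  obtain ⟨r', hr', d', hd'⟩ := (hb'.raise hr).pow hd N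
  set A : Finset ((Fin N → Fin (Module.finrank W.K (W.H Y))) ×
      ((Fin N → Fin (Module.finrank W.K (W.H Y))) × Unit)) :=
    Finset.univ.filter fun x => ∏ l, α (x.1 l) = ∏ l, α (x.2.1 l) with hA
  have hcount := Ad.count hp (hRH _) hd' (Y.dim * N) (A := A) (by
    rintro ⟨x, y, z⟩ hx
    have hx' : ∏ l, α (x l) = ∏ l, α (y l) := (Finset.mem_filter.1 hx).2
    dsimp only
    rw [mul_one, Finset.prod_pow, ← hx', ← mul_pow, ← Finset.prod_mul_distrib,
      Finset.prod_congr rfl (g := fun _ => ((p : W.K) ^ (Φ.e Y * Φ.e Z)) ^ Y.dim)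
        (fun l _ => by rw [mul_comm]; exact hαα (x l)), Finset.prod_const, Finset.card_univ,
      Fintype.card_fin]
    simp only [← pow_mul]
    congr 1
    ring)
  have hcard : A.card = (Finset.univ.filter fun x :
      (Fin N → Fin (Module.finrank W.K (W.H Y))) × (Fin N → Fin (Module.finrank W.K (W.H Y))) =>
      ∏ l, α (x.1 l) = ∏ l, α (x.2 l)).card := by
    refine Finset.card_bij (fun x _ => (x.1, x.2.1)) ?_ ?_ ?_
    · intro x hx
      exact Finset.mem_filter.2 ⟨Finset.mem_univ _, (Finset.mem_filter.1 hx).2⟩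
    · rintro ⟨x, y, z⟩ _ ⟨x', y', z'⟩ _ hxy
      have e1 := congrArg Prod.fst hxy
      have e2 := congrArg Prod.snd hxy
      dsimp only at e1 e2
      rw [e1, e2]
    · rintro ⟨x, y⟩ hx
      exact ⟨(x, y, ()), Finset.mem_filter.2 ⟨Finset.mem_univ _, (Finset.mem_filter.1 hx).2⟩, rfl⟩
  have h1 := pow_le_card_pairs α N
  rw [Fintype.card_fin, ← hcard] at h1
  rw [powProd_add] at hcount
  exact h1.trans (Nat.mul_le_mul_left _ hcount)

end Pool.Agent.N181.Gap
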