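import Pool.Agent.N181.Gap.Growth
import Pool.Agent.N181.Mod.Main1

/-!
# Reassociation of the powers
-/

set_option autoImplicit false

open CategoryTheory AlgebraicGeometry TensorProduct

universe u v

namespace Pool.Agent.N181.Gap

open Pool.Agent.H914 Pool.Agent.H914.VarClass Pool.Agent.H914.VarClass.Obj
  Pool.Agent.H914.WeilCohomology Pool.Agent.W534 Pool.Agent.TH132.P Pool.Agent.N181.Mod
  Pool.Agent.H281R3.HT

variable {k : Type u} [Field k] {𝒱 : VarClass k} {ops : CycleOps 𝒱}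
  {W : WeilCohomology.{u, v} ops} {U X X' X'' Y Z Z' S : 𝒱.Obj} {p : ℕ}

/-- Isomorphic varieties. -/
def Isoc (X X' : 𝒱.Obj) : Prop :=
  X.dim = X'.dim ∧ ∃ (f : X ⟶ X') (g : X' ⟶ X), f ≫ g = 𝟙 X ∧ g ≫ f = 𝟙 X'

lemma Isoc.refl (X : 𝒱.Obj) : Isoc X X := ⟨rfl, 𝟙 X, 𝟙 X, by simp, by simp⟩

lemma Isoc.trans (h : Isoc X X') (h' : Isoc X' X'') : Isoc X X'' := by
  obtain ⟨hd, f, g, h1, h2⟩ := h
  obtain ⟨hd', f', g', h1', h2'⟩ := h'
  refine ⟨hd.trans hd', f ≫ f', g' ≫ g, ?_, ?_⟩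
  · rw [Category.assoc, ← Category.assoc f', h1', Category.id_comp, h1]
  · rw [Category.assoc, ← Category.assoc g, h2, Category.id_comp, h2']

lemma idp_comp (f : X ⟶ X') (g : X' ⟶ X) (h : f ≫ g = 𝟙 X) : idp U f ≫ idp U g = 𝟙 _ := by
  apply prod_hom_ext
  · rw [Category.assoc, idp, idp, Obj.lift_fst, Obj.lift_fst, Category.id_comp]
  · rw [Category.assoc, idp, idp, Obj.lift_snd, ← Category.assoc, Obj.lift_snd, Category.assoc, h,
      Category.comp_id, Category.id_comp]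

lemma Isoc.prod (U : 𝒱.Obj) (h : Isoc X X') : Isoc (U.prod X) (U.prod X') := by
  obtain ⟨hd, f, g, h1, h2⟩ := h
  exact ⟨by rw [dim_prod, dim_prod, hd], idp U f, idp U g, idp_comp f g h1, idp_comp g f h2⟩

lemma Isoc.asc (X Y Z : 𝒱.Obj) : Isoc ((X.prod Y).prod Z) (X.prod (Y.prod Z)) :=
  ⟨Nat.add_assoc _ _ _, Mod.asc X Y Z, Mod.asc' X Y Z, asc_asc' X Y Z, asc'_asc X Y Z⟩

lemma isoc_pow (Y T : 𝒱.Obj) (n : ℕ) : Isoc ((powProd Y Y n).prod T) (powProd Y T (n + 1)) := by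
  induction n with
  | zero => exact Isoc.refl _
  | succ n ih => exact (Isoc.asc Y (powProd Y Y n) T).trans (Isoc.prod Y ih)

lemma isoc_powpow (Y S : 𝒱.Obj) (n j : ℕ) :
    Isoc (powProd (powProd Y Y n) S j) (powProd Y S ((n + 1) * j)) := by
  induction j with
  | zero => exact Isoc.refl _
  | succ j ih =>
    have h1 := (Isoc.prod (powProd Y Y n) ih).trans (isoc_pow Y (powProd Y S ((n + 1) * j)) n)
    rw [powProd_add] at h1
    rw [Nat.mul_succ, Nat.add_comm ((n + 1) * j)]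
    exact h1

lemma Isoc.finrank_tot (𝒮 : Sys W) (h : Isoc X X') :
    Module.finrank W.K (tot 𝒮 X) = Module.finrank W.K (tot 𝒮 X') := by
  obtain ⟨hd, f, g, h1, h2⟩ := h
  rw [Gap.finrank_tot, Gap.finrank_tot, hd]
  exact Finset.sum_congr rfl fun c _ => finrank_iso 𝒮 f g h1 h2 c

lemma Isoc.rkSum (W : WeilCohomology.{u, v} ops) (h : Isoc X X') :
    rkSum ops X = rkSum ops X' := by
  obtain ⟨hd, f, g, h1, h2⟩ := h
  rw [Gap.rkSum, Gap.rkSum, ← hd]
  exact Finset.sum_congr rfl fun c hc => numRank_iso W f g h1 h2 hd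
    (by have := Finset.mem_range.1 hc; omega)

lemma finrank_H_prod (X Y : 𝒱.Obj) : Module.finrank W.K (W.H (X.prod Y)) =
    Module.finrank W.K (W.H X) * Module.finrank W.K (W.H Y) := by
  rw [← (kappa W X Y).finrank_eq, Module.finrank_tensorProduct]

lemma finrank_H_pow (Y Z : 𝒱.Obj) (n : ℕ) : Module.finrank W.K (W.H (powProd Y Z n)) =
    Module.finrank W.K (W.H Y) ^ n * Module.finrank W.K (W.H Z) := by
  induction n with
  | zero => rw [pow_zero, one_mul]; rfl
  | succ n ih =>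
    change Module.finrank W.K (W.H (Y.prod (powProd Y Z n))) = _
    rw [finrank_H_prod, ih, pow_succ', mul_assoc]

/-- The classes of the product include those of the second factor. -/
lemma finrank_tot_prod (𝒮 : Sys W) (h1 : (1 : W.H Y) ≠ 0) (S : 𝒱.Obj) :
    Module.finrank W.K (tot 𝒮 S) ≤ Module.finrank W.K (tot 𝒮 (Y.prod S)) := by
  have hinj : Function.Injective (W.map (snd Y S)) := by
    rw [injective_iff_map_eq_zero]
    intro a ha
    refine TH132.A.one_ext_inj h1 (a := a) ?_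
    change W.map (fst Y S) 1 * W.map (snd Y S) a = 0
    rw [ha, mul_zero]
  have hmap : ∀ x ∈ tot 𝒮 S, (W.map (snd Y S)).toLinearMap x ∈ tot 𝒮 (Y.prod S) :=
    fun x hx => tot_map _ hx
  refine LinearMap.finrank_le_finrank_of_injective
    (f := (W.map (snd Y S)).toLinearMap.restrict hmap) ?_
  intro x y hxy
  exact Subtype.ext (hinj (congrArg Subtype.val hxy))

end Pool.Agent.N181.Gap
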