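import Pool.Agent.N181.Gap.Core

/-!
# The generalised Tate classes as a system of classes
-/

set_option autoImplicit false

open CategoryTheory AlgebraicGeometry

universe u v

namespace Pool.Agent.N181.Gap

open Pool.Agent.H914 Pool.Agent.H914.VarClass Pool.Agent.H914.VarClass.Obj
  Pool.Agent.H914.WeilCohomology Pool.Agent.W534 Pool.Agent.TH132.P Pool.Agent.N181.Mod

variable {k : Type u} [Field k] {𝒱 : VarClass k} {ops : CycleOps 𝒱}
  {W : WeilCohomology.{u, v} ops} {U X Y Z Z' S : 𝒱.Obj} {p : ℕ}

/-- Products of generalised eigenvectors of an algebra endomorphism. -/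
lemma gen_mul {K A : Type*} [Field K] [Ring A] [Algebra K A] (F : A →ₐ[K] A) (a b : K) (N : ℕ) :
    ∀ (n m : ℕ) (x y : A), n + m ≤ N →
      ((F.toLinearMap - a • (1 : Module.End K A)) ^ n) x = 0 →
      ((F.toLinearMap - b • (1 : Module.End K A)) ^ m) y = 0 →
      ((F.toLinearMap - (a * b) • (1 : Module.End K A)) ^ N) (x * y) = 0 := by
  induction N with
  | zero =>
    intro n m x y hnm hx hy
    obtain rfl : n = 0 := by omega
    rw [pow_zero, Module.End.one_apply] at hx
    rw [hx, zero_mul, map_zero]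
  | succ N ih =>
    intro n m x y hnm hx hy
    rcases n with _ | n
    · rw [pow_zero, Module.End.one_apply] at hx
      rw [hx, zero_mul, map_zero]
    rcases m with _ | m
    · rw [pow_zero, Module.End.one_apply] at hy
      rw [hy, mul_zero, map_zero]
    have e1 : (F.toLinearMap - (a * b) • (1 : Module.End K A)) (x * y) =
        (F.toLinearMap - a • (1 : Module.End K A)) x * F y +
          a • (x * (F.toLinearMap - b • (1 : Module.End K A)) y) := by
      simp only [LinearMap.sub_apply, AlgHom.toLinearMap_apply, map_mul, LinearMap.smul_apply,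
        Module.End.one_apply, sub_mul, mul_sub, smul_sub, smul_mul_assoc, mul_smul_comm,
        mul_smul]
      abel
    have hc : Commute F.toLinearMap (F.toLinearMap - b • (1 : Module.End K A)) :=
      (Commute.refl _).sub_right ((Commute.one_right _).smul_right _)
    rw [pow_succ, Module.End.mul_apply, e1, map_add, map_smul]
    rw [ih n (m + 1) _ (F y) (by omega), ih (n + 1) m x _ (by omega) hx, smul_zero, add_zero]
    · rw [← Module.End.mul_apply, ← pow_succ]
      exact hy
    · rw [← Module.End.mul_apply, ← pow_succ]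
      exact hx
    · have h1 := congrArg F.toLinearMap hy
      rw [map_zero, ← Module.End.mul_apply, (hc.pow_right (m + 1)).eq, Module.End.mul_apply] at h1
      exact h1

variable (Φ : FrobSystem W p)

/-- The system of the generalised Tate classes. -/
noncomputable def clT : ClSys W where
  toSys := sysT Φ
  alg := fun Z c => span_le_genT Φ Z c
  mul' := by
    intro Z c q z x hz hx
    obtain ⟨s, hs, hz'⟩ := (mem_genT Φ).1 hz
    obtain ⟨t, ht, hx'⟩ := (mem_genT Φ).1 hx
    obtain ⟨⟨n, hn⟩, hzg⟩ := (mem_genTate Φ).1 (genTate_mono Φ s t q hz')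
    obtain ⟨⟨m, hm⟩, hxg⟩ := (mem_genTate Φ).1 (genTate_mono' Φ t s c hx')
    refine (mem_genT Φ).2 ⟨s * t, Nat.mul_pos hs ht, (mem_genTate Φ).2 ⟨⟨n + m, ?_⟩, ?_⟩⟩
    · rw [pow_add (card Φ Z (s * t) : W.K) q c]
      exact gen_mul (W.map (W534.iter (Φ.Fr Z) (s * t))) _ _ (n + m) n m z x le_rfl hn hm
    · have := W.mul_mem hzg hxg
      rwa [show 2 * q + 2 * c = 2 * (q + c) by ring] at this
  nondeg := by
    intro Z c c' x hcc hx h
    obtain ⟨t, ht, h1⟩ := genT_spec Φ Z c
    obtain ⟨t', ht', h2⟩ := genT_spec Φ Z c'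
    have e1 := h1 (t * t') (Nat.mul_pos ht ht') (dvd_mul_right _ _)
    have e2 := h2 (t * t') (Nat.mul_pos ht ht') (dvd_mul_left _ _)
    refine genTate_nondeg Φ (s := t * t') hcc ?_ ?_
    · rw [e1]; exact hx
    · rw [e2]; exact h

end Pool.Agent.N181.Gap
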