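import Pool.Agent.N181.Mod.Sys

/-!
# Operators given by external products
-/

set_option autoImplicit false

open CategoryTheory AlgebraicGeometry

universe u v

namespace Pool.Agent.N181.Gap

open Pool.Agent.H914 Pool.Agent.H914.VarClass Pool.Agent.H914.VarClass.Obj
  Pool.Agent.H914.WeilCohomology Pool.Agent.W534 Pool.Agent.TH132.P

variable {k : Type u} [Field k] {𝒱 : VarClass k} {ops : CycleOps 𝒱}
  {W : WeilCohomology.{u, v} ops} {U X Y Z S : 𝒱.Obj}

lemma tr_ext_mul_ext {i j : ℕ} {u' : W.H U} {y : W.H X} (hu : u' ∈ W.gr U i) (hy : y ∈ W.gr X j)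
    (u₁ : W.H U) (y' : W.H X) :
    W.tr (U.prod X) ((W.map (fst U X) u₁ * W.map (snd U X) y) *
      (W.map (fst U X) u' * W.map (snd U X) y')) =
      (-1 : W.K) ^ (j * i) * (W.tr U (u₁ * u') * W.tr X (y * y')) := by
  have h1 : W.map (snd U X) y * W.map (fst U X) u' =
      (-1 : W.K) ^ (j * i) • (W.map (fst U X) u' * W.map (snd U X) y) :=
    W.comm (W.map_mem _ hy) (W.map_mem _ hu)
  have h2 : (W.map (fst U X) u₁ * W.map (snd U X) y) *
      (W.map (fst U X) u' * W.map (snd U X) y') =
      (-1 : W.K) ^ (j * i) • (W.map (fst U X) (u₁ * u') * W.map (snd U X) (y * y')) := by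
    rw [mul_assoc, ← mul_assoc (W.map (snd U X) y), h1, smul_mul_assoc, mul_smul_comm, map_mul,
      map_mul, mul_assoc, mul_assoc]
  rw [h2, map_smul, W.tr_prod, smul_eq_mul]

/-- The product of the identity and of a morphism. -/
noncomputable def idp (U : 𝒱.Obj) {X S : 𝒱.Obj} (h : X ⟶ S) : U.prod X ⟶ U.prod S :=
  lift (fst U X) (snd U X ≫ h)

lemma map_idp (h : X ⟶ S) (a : W.H U) (b : W.H S) :
    W.map (idp U h) (W.map (fst U S) a * W.map (snd U S) b) =
      W.map (fst U X) a * W.map (snd U X) (W.map h b) := by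
  have e1 : idp U h ≫ fst U S = fst U X := Obj.lift_fst _ _
  have e2 : idp U h ≫ snd U S = snd U X ≫ h := Obj.lift_snd _ _
  rw [map_mul (W.map (idp U h)), ← W.map_comp, ← W.map_comp, e1, e2, W.map_comp]

lemma push_idp (h : X ⟶ S) (a : W.H U) (y : W.H X) :
    W.push (idp U h) (W.map (fst U X) a * W.map (snd U X) y) =
      W.map (fst U S) a * W.map (snd U S) (W.push h y) := by
  refine gr_induction (W.isInternal X) (p := fun y =>
    W.push (idp U h) (W.map (fst U X) a * W.map (snd U X) y) =
      W.map (fst U S) a * W.map (snd U S) (W.push h y)) ?_ ?_ y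
  · intro j y hy
    apply W.tr_ext
    intro c
    refine W.kunneth_induction (p := fun c =>
      W.tr (U.prod S) (W.push (idp U h) (W.map (fst U X) a * W.map (snd U X) y) * c) =
      W.tr (U.prod S) (W.map (fst U S) a * W.map (snd U S) (W.push h y) * c)) ?_ ?_ c
    · intro x z hx hz
      rw [mul_add, mul_add, map_add, map_add, hx, hz]
    · intro i l u' hu' s hs
      rw [W.tr_push, map_idp, tr_ext_mul_ext hu' hy]
      have h1 := W.push_mem h hy
      by_cases hj : ∃ j' : ℕ, (j' : ℤ) = j + 2 * ((S.dim : ℤ) - X.dim)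
      · obtain ⟨j', hj'⟩ := hj
        rw [← hj', grZ_natCast] at h1
        rw [tr_ext_mul_ext hu' h1, W.tr_push]
        congr 1
        have e1 : (-1 : W.K) ^ (j * i) = (-1 : W.K) ^ (j' * i) := by
          rcases Nat.even_or_odd i with hi | hi
          · rw [(hi.mul_left j).neg_one_pow, (hi.mul_left j').neg_one_pow]
          · rw [mul_comm j, mul_comm j', pow_mul, pow_mul, hi.neg_one_pow]
            rcases Nat.even_or_odd j with hj1 | hj1
            · have hj2 : Even j' := by
                rw [Nat.even_iff] at hj1 ⊢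
                omega
              rw [hj1.neg_one_pow, hj2.neg_one_pow]
            · have hj2 : Odd j' := by
                rw [Nat.odd_iff] at hj1 ⊢
                omega
              rw [hj1.neg_one_pow, hj2.neg_one_pow]
        exact e1
      · have h2 : W.push h y = 0 := by
          rw [grZ_of_neg (by
            by_contra hcon
            push Not at hcon
            exact hj ⟨((j : ℤ) + 2 * ((S.dim : ℤ) - X.dim)).toNat, Int.toNat_of_nonneg hcon⟩)]
            at h1
          exact (Submodule.mem_bot _).1 h1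
        rw [h2, map_zero, mul_zero, zero_mul, map_zero, ← W.tr_push, h2, zero_mul, map_zero,
          mul_zero, mul_zero]
  · intro x y hx hy
    rw [map_add, mul_add, map_add, hx, hy, map_add, map_add, mul_add]

/-- The operator `x ↦ g^* a · h^* h_* (g^* b · x)`. -/
noncomputable def top (W : WeilCohomology.{u, v} ops) {X Y S : 𝒱.Obj} (g : X ⟶ Y) (h : X ⟶ S)
    (a b : W.H Y) : Module.End W.K (W.H X) :=
  LinearMap.mulLeft W.K (W.map g a) ∘ₗ (W.map h).toLinearMap ∘ₗ W.push h ∘ₗ
    LinearMap.mulLeft W.K (W.map g b)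

lemma top_apply (g : X ⟶ Y) (h : X ⟶ S) (a b : W.H Y) (x : W.H X) :
    top W g h a b x = W.map g a * W.map h (W.push h (W.map g b * x)) := rfl

/-- The operator of rank one `x ↦ tr (b x) a`. -/
noncomputable def rk (W : WeilCohomology.{u, v} ops) {Y : 𝒱.Obj} (a b : W.H Y) :
    Module.End W.K (W.H Y) :=
  (W.tr Y ∘ₗ LinearMap.mulLeft W.K b).smulRight a

lemma rk_apply (a b x : W.H Y) : rk W a b x = W.tr Y (b * x) • a := rfl

lemma rk_mul (a b a' b' : W.H Y) : rk W a b * rk W a' b' = W.tr Y (b * a') • rk W a b' := by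
  ext x
  rw [Module.End.mul_apply, rk_apply, rk_apply, mul_smul_comm, map_smul, smul_eq_mul,
    LinearMap.smul_apply, rk_apply, smul_smul, mul_comm]

lemma top_fst (a b : W.H Y) :
    top W (fst Y S) (snd Y S) a b = extOp W (rk W a b) (1 : Module.End W.K (W.H S)) := by
  apply ext_kunneth_lin
  intro x s
  rw [extOp_tmul, top_apply, ← mul_assoc, ← map_mul, W.push_snd, map_smul, rk_apply, map_smul,
    Module.End.one_apply, mul_smul_comm, smul_mul_assoc]

lemma top_ext {m n : ℕ} {a b : W.H Y} (ha : a ∈ W.gr Y (2 * m)) (hb : b ∈ W.gr Y (2 * n))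
    (g : X ⟶ Y) (h : X ⟶ S) :
    extOp W (1 : Module.End W.K (W.H U)) (top W g h a b) =
      top W (snd U X ≫ g) (idp U h) a b := by
  apply ext_kunneth_lin
  intro x s
  rw [extOp_tmul, top_apply, top_apply, Module.End.one_apply, W.map_comp, W.map_comp,
    ← mul_assoc, W.even_comm (W.map_mem (snd U X) (W.map_mem g hb)), mul_assoc, ← map_mul,
    push_idp, map_idp, ← mul_assoc, W.even_comm (W.map_mem (snd U X) (W.map_mem g ha)),
    mul_assoc, ← map_mul]

end Pool.Agent.N181.Gap
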