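import Pool.Agent.N181.Mod.Master
import Pool.Agent.N181.Gap.Top

/-!
# Total spaces of classes
-/

set_option autoImplicit false

open CategoryTheory AlgebraicGeometry

universe u v

namespace Pool.Agent.N181.Gap

open Pool.Agent.H914 Pool.Agent.H914.VarClass Pool.Agent.H914.VarClass.Obj
  Pool.Agent.H914.WeilCohomology Pool.Agent.W534 Pool.Agent.TH132.P Pool.Agent.N181.Mod

variable {k : Type u} [Field k] {𝒱 : VarClass k} {ops : CycleOps 𝒱}
  {W : WeilCohomology.{u, v} ops} {U X Y Z Z' S : 𝒱.Obj} {p : ℕ}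

/-- A system of spaces of classes which contains the algebraic classes, is stable under pull-backs,
push-forwards and products, and on which the trace forms are nondegenerate. -/
structure ClSys (W : WeilCohomology.{u, v} ops) extends Sys W where
  mul' : ∀ {Z : 𝒱.Obj} {c q : ℕ} {z x : W.H Z}, z ∈ S Z q → x ∈ S Z c → z * x ∈ S Z (q + c)
  alg : ∀ (Z : 𝒱.Obj) (c : ℕ), spanCycles W Z (c : ℕ) ≤ S Z c
  nondeg : ∀ {Z : 𝒱.Obj} {c c' : ℕ} {x : W.H Z}, c + c' = Z.dim → x ∈ S Z c →
    (∀ y ∈ S Z c', W.tr Z (x * y) = 0) → x = 0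

/-- All classes of the system. -/
noncomputable def tot (𝒮 : Sys W) (Z : 𝒱.Obj) : Submodule W.K (W.H Z) := ⨆ c : ℕ, 𝒮.S Z c

section Tot

variable {𝒮 : Sys W}

lemma le_tot (𝒮 : Sys W) (Z : 𝒱.Obj) (c : ℕ) : 𝒮.S Z c ≤ tot 𝒮 Z :=
  le_iSup (fun c : ℕ => 𝒮.S Z c) c

lemma tot_ind {p : W.H Z → Prop} (h0 : p 0) (hadd : ∀ x y, p x → p y → p (x + y))
    (h : ∀ c, ∀ x ∈ 𝒮.S Z c, p x) {x : W.H Z} (hx : x ∈ tot 𝒮 Z) : p x := by
  induction hx using Submodule.iSup_induction' with
  | mem l x hx => exact h l x hx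
  | zero => exact h0
  | add x y _ _ hx hy => exact hadd x y hx hy

lemma tot_comm {x : W.H Z} (hx : x ∈ tot 𝒮 Z) (y : W.H Z) : x * y = y * x :=
  tot_ind (p := fun x => x * y = y * x) (by rw [zero_mul, mul_zero])
    (fun a b ha hb => by rw [add_mul, mul_add, ha, hb])
    (fun c x hx => W.even_comm (𝒮.gr Z c hx) y) hx

lemma tot_map (f : Z ⟶ Z') {x : W.H Z'} (hx : x ∈ tot 𝒮 Z') : W.map f x ∈ tot 𝒮 Z :=
  tot_ind (p := fun x => W.map f x ∈ tot 𝒮 Z) (by rw [map_zero]; exact Submodule.zero_mem _)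
    (fun a b ha hb => by rw [map_add]; exact Submodule.add_mem _ ha hb)
    (fun c x hx => le_tot 𝒮 Z c (𝒮.map f hx)) hx

lemma tot_push (f : Z ⟶ Z') {x : W.H Z} (hx : x ∈ tot 𝒮 Z) : W.push f x ∈ tot 𝒮 Z' := by
  refine tot_ind (p := fun x => W.push f x ∈ tot 𝒮 Z') (by rw [map_zero]; exact Submodule.zero_mem _)
    (fun a b ha hb => by rw [map_add]; exact Submodule.add_mem _ ha hb) ?_ hx
  intro c x hx
  by_cases hc : Z.dim ≤ c + Z'.dim
  · exact le_tot 𝒮 Z' (c + Z'.dim - Z.dim) (𝒮.push f hx (by omega))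
  · have h1 := W.push_mem f (𝒮.gr Z c hx)
    rw [grZ_of_neg (by push_cast; omega)] at h1
    rw [(Submodule.mem_bot _).1 h1]
    exact Submodule.zero_mem _

lemma tot_mul {z x : W.H Z} (hz : z ∈ tot (sysA W) Z) (hx : x ∈ tot 𝒮 Z) : z * x ∈ tot 𝒮 Z := by
  refine tot_ind (𝒮 := sysA W) (p := fun z => z * x ∈ tot 𝒮 Z)
    (by rw [zero_mul]; exact Submodule.zero_mem _)
    (fun a b ha hb => by rw [add_mul]; exact Submodule.add_mem _ ha hb) ?_ hz
  intro q z hz
  refine tot_ind (p := fun x => z * x ∈ tot 𝒮 Z) (by rw [mul_zero]; exact Submodule.zero_mem _)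
    (fun a b ha hb => by rw [mul_add]; exact Submodule.add_mem _ ha hb) ?_ hx
  intro c x hx
  exact le_tot 𝒮 Z (q + c) (𝒮.mul hz hx)

lemma one_mem_tot (Z : 𝒱.Obj) : (1 : W.H Z) ∈ tot (sysA W) Z := by
  refine le_tot (sysA W) Z 0 ?_
  change (1 : W.H Z) ∈ spanCycles W Z ((0 : ℕ) : ℤ)
  exact Submodule.subset_span ⟨0, rfl, Z.V.fundCycle, SmVar.fundCycle_mem _, W.cl_fund Z⟩

/-- The dimension of the total space. -/
lemma finrank_tot (𝒮 : Sys W) (Z : 𝒱.Obj) : Module.finrank W.K (tot 𝒮 Z) =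
    ∑ c ∈ Finset.range (Z.dim + 1), Module.finrank W.K (𝒮.S Z c) := by
  have h1 : tot 𝒮 Z = LinearMap.range
      ((LinearMap.lsum W.K (fun c : Fin (Z.dim + 1) => 𝒮.S Z (c : ℕ)) W.K)
        fun c => (𝒮.S Z (c : ℕ)).subtype) := by
    apply le_antisymm
    · refine iSup_le fun c => ?_
      by_cases hc : c < Z.dim + 1
      · intro x hx
        refine ⟨Pi.single (⟨c, hc⟩ : Fin (Z.dim + 1)) ⟨x, hx⟩, ?_⟩
        rw [LinearMap.lsum_apply, LinearMap.sum_apply, Finset.sum_eq_single ⟨c, hc⟩]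
        · simp
        · intro b _ hb
          simp [hb]
        · intro h
          exact absurd (Finset.mem_univ _) h
      · rw [𝒮.bot (by omega)]
        exact bot_le
    · rintro _ ⟨v, rfl⟩
      rw [LinearMap.lsum_apply, LinearMap.sum_apply]
      exact Submodule.sum_mem _ fun c _ => le_tot 𝒮 Z _ (v c).2
  have hinj : Function.Injective
      ((LinearMap.lsum W.K (fun c : Fin (Z.dim + 1) => 𝒮.S Z (c : ℕ)) W.K)
        fun c => (𝒮.S Z (c : ℕ)).subtype) := by
    rw [← LinearMap.ker_eq_bot, LinearMap.ker_eq_bot']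
    intro v hv
    rw [LinearMap.lsum_apply, LinearMap.sum_apply] at hv
    funext c
    apply Subtype.ext
    have h2 := congrArg (proj (W.isInternal Z) (2 * (c : ℕ))) hv
    rw [map_sum, map_zero, Finset.sum_eq_single c] at h2
    · have h3 : proj (W.isInternal Z) (2 * (c : ℕ)) (v c : W.H Z) = (v c : W.H Z) :=
        proj_same _ (𝒮.gr Z c (v c).2)
      rw [← h3]
      exact h2
    · intro b _ hb
      have h3 : proj (W.isInternal Z) (2 * (c : ℕ)) (v b : W.H Z) = 0 :=
        proj_ne _ (𝒮.gr Z b (v b).2) (fun h => hb (Fin.ext (by omega)))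
      exact h3
    · intro h
      exact absurd (Finset.mem_univ _) h
  rw [h1, LinearMap.finrank_range_of_inj hinj, Module.finrank_pi_fintype,
    Fin.sum_univ_eq_sum_range (fun c => Module.finrank W.K (𝒮.S Z c)) (Z.dim + 1)]

end Tot

/-- The orthogonal complement for the trace form. -/
def perp (A : Submodule W.K (W.H Z)) : Submodule W.K (W.H Z) where
  carrier := {x | ∀ a ∈ A, W.tr Z (x * a) = 0}
  zero_mem' := fun a _ => by rw [zero_mul, map_zero]
  add_mem' := fun hx hy a ha => by rw [add_mul, map_add, hx a ha, hy a ha, add_zero]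
  smul_mem' := fun r x hx a ha => by rw [smul_mul_assoc, map_smul, hx a ha, smul_zero]

lemma mem_perp {A : Submodule W.K (W.H Z)} {x : W.H Z} :
    x ∈ perp A ↔ ∀ a ∈ A, W.tr Z (x * a) = 0 := Iff.rfl

namespace ClSys

variable (𝒮 : ClSys W)

lemma mul_tot {z x : W.H Z} (hz : z ∈ tot 𝒮.toSys Z) (hx : x ∈ tot 𝒮.toSys Z) :
    z * x ∈ tot 𝒮.toSys Z := by
  refine tot_ind (p := fun z => z * x ∈ tot 𝒮.toSys Z)
    (by rw [zero_mul]; exact Submodule.zero_mem _)
    (fun a b ha hb => by rw [add_mul]; exact Submodule.add_mem _ ha hb) ?_ hz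
  intro q z hz
  refine tot_ind (p := fun x => z * x ∈ tot 𝒮.toSys Z)
    (by rw [mul_zero]; exact Submodule.zero_mem _)
    (fun a b ha hb => by rw [mul_add]; exact Submodule.add_mem _ ha hb) ?_ hx
  intro c x hx
  exact le_tot 𝒮.toSys Z (q + c) (𝒮.mul' hz hx)

lemma alg_tot (Z : 𝒱.Obj) : tot (sysA W) Z ≤ tot 𝒮.toSys Z :=
  iSup_mono fun c => 𝒮.alg Z c

/-- The form is nondegenerate on the total space. -/
lemma nondeg_tot {x : W.H Z} (hx : x ∈ tot 𝒮.toSys Z)
    (h : ∀ y ∈ tot 𝒮.toSys Z, W.tr Z (x * y) = 0) : x = 0 := by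
  have hx2 : ∀ c, proj (W.isInternal Z) (2 * c) x ∈ 𝒮.S Z c := by
    intro c
    refine tot_ind (p := fun x => proj (W.isInternal Z) (2 * c) x ∈ 𝒮.S Z c)
      (by rw [map_zero]; exact Submodule.zero_mem _)
      (fun a b ha hb => by rw [map_add]; exact Submodule.add_mem _ ha hb) ?_ hx
    intro l x hx
    by_cases hl : l = c
    · subst hl
      rw [proj_same _ (𝒮.gr Z l hx)]
      exact hx
    · rw [proj_ne _ (𝒮.gr Z l hx) (by omega)]
      exact Submodule.zero_mem _
  have hx3 : ∀ c, proj (W.isInternal Z) (2 * c + 1) x = 0 := by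
    intro c
    refine tot_ind (p := fun x => proj (W.isInternal Z) (2 * c + 1) x = 0)
      (by rw [map_zero]) (fun a b ha hb => by rw [map_add, ha, hb, add_zero]) ?_ hx
    intro l x hx
    exact proj_ne _ (𝒮.gr Z l hx) (by omega)
  have htr : ∀ c c', c + c' = Z.dim → ∀ y ∈ 𝒮.S Z c',
      W.tr Z (proj (W.isInternal Z) (2 * c) x * y) = W.tr Z (x * y) := by
    intro c c' hcc y hy
    refine tot_ind (p := fun x => W.tr Z (proj (W.isInternal Z) (2 * c) x * y) =
      W.tr Z (x * y)) (by rw [map_zero]) (fun a b ha hb => by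
        rw [map_add, add_mul, add_mul, map_add, map_add, ha, hb]) ?_ hx
    intro l x hx
    by_cases hl : l = c
    · subst hl
      rw [proj_same _ (𝒮.gr Z l hx)]
    · rw [proj_ne _ (𝒮.gr Z l hx) (by omega), zero_mul, map_zero,
        W.tr_eq_zero (W.mul_mem (𝒮.gr Z l hx) (𝒮.gr Z c' hy)) (by omega)]
  have hz : ∀ i, proj (W.isInternal Z) i x = 0 := by
    intro i
    rcases Nat.even_or_odd' i with ⟨c, rfl | rfl⟩
    · by_cases hc : c ≤ Z.dim
      · refine 𝒮.nondeg (c' := Z.dim - c) (by omega) (hx2 c) fun y hy => ?_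
        rw [htr c (Z.dim - c) (by omega) y hy]
        exact h y (le_tot 𝒮.toSys Z _ hy)
      · have h1 := hx2 c
        rw [𝒮.bot (by omega)] at h1
        exact (Submodule.mem_bot _).1 h1
    · exact hx3 c
  have h1 := sum_proj (W.isInternal Z) (N := 2 * Z.dim + 1)
    (fun i hi => W.gr_eq_bot Z i (by omega))
  have h2 := congrArg (fun F => F x) h1
  simp only [LinearMap.sum_apply, Module.End.one_apply] at h2
  rw [← h2]
  exact Finset.sum_eq_zero fun i _ => hz i

/-- The dimension of the orthogonal complement. -/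
lemma finrank_perp {A : Submodule W.K (W.H Z)} (hA : A ≤ tot 𝒮.toSys Z) :
    Module.finrank W.K (tot 𝒮.toSys Z ⊓ perp A : Submodule W.K (W.H Z)) +
      Module.finrank W.K A = Module.finrank W.K (tot 𝒮.toSys Z) := by
  set V := tot 𝒮.toSys Z with hV
  -- the map to the dual space of `A`
  set φ : V →ₗ[W.K] Module.Dual W.K A :=
    { toFun := fun a => W.tr Z ∘ₗ LinearMap.mulLeft W.K (a : W.H Z) ∘ₗ A.subtype
      map_add' := by intro a b; ext c; simp [add_mul]
      map_smul' := by intro a b; ext c; simp } with hφ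
  have hker : Module.finrank W.K (LinearMap.ker φ) =
      Module.finrank W.K (V ⊓ perp A : Submodule W.K (W.H Z)) := by
    have h0 : (LinearMap.ker φ).map V.subtype = V ⊓ perp A := ?_
    · rw [← h0, Submodule.finrank_map_subtype_eq]
    ext x
    constructor
    · rintro ⟨⟨x, hx⟩, h1, rfl⟩
      refine ⟨hx, fun a ha => ?_⟩
      exact congrArg (fun F => F ⟨a, ha⟩) (LinearMap.mem_ker.1 h1)
    · rintro ⟨hx, h1⟩
      refine ⟨⟨x, hx⟩, ?_, rfl⟩
      refine LinearMap.mem_ker.2 ?_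
      ext ⟨a, ha⟩
      exact h1 a ha
  have hle : Module.finrank W.K (LinearMap.range φ) = Module.finrank W.K A := by
    apply le_antisymm
    · rw [← Subspace.dual_finrank_eq (K := W.K) (V := A)]
      exact Submodule.finrank_le _
    · -- the transposed map is injective
      set ψ : A →ₗ[W.K] Module.Dual W.K (LinearMap.range φ) :=
        { toFun := fun a => LinearMap.applyₗ (R := W.K) a ∘ₗ (LinearMap.range φ).subtype
          map_add' := by intro a b; ext c; simp
          map_smul' := by intro a b; ext c; simp } with hψ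
      have hinj : Function.Injective ψ := by
        rw [← LinearMap.ker_eq_bot, LinearMap.ker_eq_bot']
        rintro ⟨a, ha⟩ h0
        apply Subtype.ext
        apply 𝒮.nondeg_tot (hA ha)
        intro y hy
        have h1 := congrArg (fun F => F ⟨φ ⟨y, hy⟩, ⟨_, rfl⟩⟩) h0
        change W.tr Z (y * a) = 0 at h1
        rwa [tot_comm hy] at h1
      have h1 := LinearMap.finrank_le_finrank_of_injective hinj
      exact h1.trans_eq (Subspace.dual_finrank_eq (K := W.K) (V := LinearMap.range φ))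
  have h3 := LinearMap.finrank_range_add_finrank_ker φ
  rw [hker, hle] at h3
  omega

end ClSys

end Pool.Agent.N181.Gap
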